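import Mathlib

set_option autoImplicit false

namespace Pool.Agent.Helper805_at

open Finset

/-- The linear form with given coefficients. -/
noncomputable def lf {k : Type*} [CommRing k] {n : ℕ} (z : Fin n → k) : MvPolynomial (Fin n) k :=
  ∑ l, MvPolynomial.C (z l) * MvPolynomial.X l

/-- The ideal generated by the `p`-th powers of the variables. -/
noncomputable def frob (k : Type*) [CommRing k] (p n : ℕ) : Ideal (MvPolynomial (Fin n) k) :=
  Ideal.span (Set.range (fun i : Fin n => (MvPolynomial.X i : MvPolynomial (Fin n) k) ^ p))

/-- The exponent with all entries equal to `m`. -/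
noncomputable def constE (n m : ℕ) : Fin n →₀ ℕ := Finsupp.equivFunOnFinite.symm (fun _ => m)

end Pool.Agent.Helper805_at
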