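import Mathlib
import Pool.Agent.Helper805_at.Defs

set_option autoImplicit false

namespace Pool.Agent.Helper805_at

open Finset

/-- Some `n` independent members have a complement whose product has nonzero central coefficient. -/
def Good {E S : Type*} [Field E] [Fintype S] [DecidableEq S] (p n : ℕ) (u : S → Fin n → E) : Prop :=
  ∃ T : Finset S, T.card = n ∧ LinearIndependent E (fun i : T => u i) ∧
    MvPolynomial.coeff (constE n (p - 1)) (∏ s ∈ Tᶜ, lf (u s)) ≠ 0

open Classical in
/-- The number of members in `Z` is nonzero in `E`, or `Z` splits off a line. -/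
def Cond {E V S : Type*} [Field E] [AddCommGroup V] [Module E V] (R : Finset S) (u : S → V) (v : V)
    (Z : Submodule E V) : Prop :=
  (((R.filter (fun s => u s ∈ Z)).card : ℕ) : E) ≠ 0 ∨
  ∃ (Z1 : Submodule E V) (b : V), Z1 ≤ Z ∧ v ∈ Z1 ∧ b ∈ Z ∧ b ∉ Z1 ∧ Z ≤ Z1 ⊔ Submodule.span E {b} ∧
    ∀ s ∈ R, u s ∈ Z → u s ∈ Z1 ∨ u s ∈ Submodule.span E {b}

open Classical in
/-- The logarithmic form of the members in `Z`, contracted with `η`. -/
noncomputable def om {E Q V S : Type*} [Field E] [Field Q] [Algebra E Q] [AddCommGroup V] [Module E V]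
    (R : Finset S) (u : S → V) (L : V →ₗ[E] Q) (Z : Submodule E V) (η : V →ₗ[E] E) : Q :=
  ∑ s ∈ R.filter (fun s => u s ∈ Z), algebraMap E Q (η (u s)) * (L (u s))⁻¹

/-- `Y` kills the products of the logarithmic form with the sets `U` not spanning `v`. -/
def Kill {E Q V S : Type*} [Field E] [Field Q] [Algebra E Q] [AddCommGroup V] [Module E V]
    (R : Finset S) (u : S → V) (L : V →ₗ[E] Q) (v : V) (Z : Submodule E V) (Y : Q →ₗ[E] E) : Prop :=
  ∀ U : Finset S, U ⊆ R → U.card + 1 = Module.finrank E Z → (∀ s ∈ U, u s ∈ Z) →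
    LinearIndependent E (fun i : U => u i) → v ∉ Submodule.span E (u '' (U : Set S)) →
    ∀ η : V →ₗ[E] E, (∀ s ∈ U, η (u s) = 0) →
      Y (om R u L Z η * ∏ s ∈ U, (L (u s))⁻¹) = 0

/-- The members in `Z` have independent directions, or there are at most `p` of them. -/
def Light {E V S : Type*} [Field E] [AddCommGroup V] [Module E V] (p : ℕ) (a : S → V)
    (Z : Submodule E V) : Prop :=
  (∀ (m : ℕ) (x : Fin m → S), (∀ i, a (x i) ∈ Z) →
    (∀ i j, i ≠ j → a (x i) ∉ Submodule.span E {a (x j)}) → LinearIndependent E (fun i => a (x i))) ∨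
  {s | a s ∈ Z}.ncard ≤ p

end Pool.Agent.Helper805_at
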