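import Mathlib
import Pool.Agent.Helper805_at.Defs

set_option autoImplicit false

namespace Pool.Agent.Helper805_at

open Finset



theorem frob_pderiv {F : Type*} [Field F] (p : ℕ) [CharP F p] (n : ℕ) (f : MvPolynomial (Fin n) F)
    (hf : f ∈ frob F p n) (i : Fin n) : MvPolynomial.pderiv i f ∈ frob F p n := by
  have key : ∀ g : MvPolynomial (Fin n) F, g ∈ frob F p n → MvPolynomial.pderiv i g ∈ frob F p n := by
    intro g hg
    unfold frob at hg
    refine Submodule.span_induction (p := fun x _ => MvPolynomial.pderiv i x ∈ frob F p n)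
      ?_ ?_ ?_ ?_ hg
    · rintro x ⟨j, rfl⟩
      have h0 : MvPolynomial.pderiv i ((MvPolynomial.X j : MvPolynomial (Fin n) F) ^ p) = 0 := by
        rw [Derivation.leibniz_pow]
        have hp : ((p : ℕ) : MvPolynomial (Fin n) F) = 0 := by
          have := CharP.cast_eq_zero (MvPolynomial (Fin n) F) p
          exact this
        rw [nsmul_eq_mul, hp, zero_mul]
      show MvPolynomial.pderiv i ((MvPolynomial.X j : MvPolynomial (Fin n) F) ^ p) ∈ frob F p n
      rw [h0]
      exact Ideal.zero_mem _
    · show MvPolynomial.pderiv i (0 : MvPolynomial (Fin n) F) ∈ frob F p n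
      rw [map_zero]
      exact Ideal.zero_mem _
    · intro x y _ _ hx hy
      show MvPolynomial.pderiv i (x + y) ∈ frob F p n
      rw [map_add]
      exact Ideal.add_mem _ hx hy
    · intro a x hx hx'
      show MvPolynomial.pderiv i (a • x) ∈ frob F p n
      rw [smul_eq_mul, Derivation.leibniz]
      refine Ideal.add_mem _ ?_ ?_
      · rw [smul_eq_mul]
        exact Ideal.mul_mem_left _ _ hx'
      · rw [smul_eq_mul]
        exact Ideal.mul_mem_right _ _ hx
  exact key f hf


end Pool.Agent.Helper805_at
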