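import Mathlib
import Pool.Agent.Helper805_at.Defs

set_option autoImplicit false

namespace Pool.Agent.Helper805_at

open Finset


theorem g2_frob_eq (F : Type*) [Field F] (p n : ℕ) :
    frob F p n = Ideal.span ((fun s : Fin n →₀ ℕ => MvPolynomial.monomial s (1 : F)) ''
      (Set.range (fun i : Fin n => Finsupp.single i p))) := by
  unfold frob
  congr 1
  rw [← Set.range_comp]
  congr 1
  funext i
  simp only [Function.comp]
  rw [MvPolynomial.X_pow_eq_monomial]

theorem mem_frob_iff {F : Type*} [Field F] (p n : ℕ) (f : MvPolynomial (Fin n) F) :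
    f ∈ frob F p n ↔ ∀ m : Fin n →₀ ℕ, (∀ i, m i < p) → MvPolynomial.coeff m f = 0 := by
  rw [g2_frob_eq, MvPolynomial.mem_ideal_span_monomial_image]
  constructor
  · intro h m hm
    by_contra hne
    obtain ⟨s, ⟨i, rfl⟩, hs⟩ := h m (MvPolynomial.mem_support_iff.mpr hne)
    have h1 := hs i
    simp only [Finsupp.single_eq_same] at h1
    have h2 := hm i
    omega
  · intro h m hm
    by_contra hcon
    apply MvPolynomial.mem_support_iff.mp hm
    apply h
    intro i
    by_contra hi
    apply hcon
    refine ⟨Finsupp.single i p, ⟨i, rfl⟩, ?_⟩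
    rw [Finsupp.single_le_iff]
    omega

end Pool.Agent.Helper805_at
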