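import Mathlib
import Pool.Agent.Helper805_at.Defs
import Pool.Agent.Helper805_at.G2

set_option autoImplicit false

namespace Pool.Agent.Helper805_at

open Finset




theorem g3_constE_apply (n m : ℕ) (i : Fin n) : constE n m i = m := rfl

theorem frob_dual {F : Type*} [Field F] (p n e s : ℕ) (hp : 1 ≤ p) (hes : e + s = n * (p - 1))
    (f : MvPolynomial (Fin n) F) (hf : f.IsHomogeneous e) (hn : f ∉ frob F p n) :
    ∃ u : MvPolynomial (Fin n) F, u.IsHomogeneous s ∧ MvPolynomial.coeff (constE n (p - 1)) (f * u) ≠ 0 := by
  rw [mem_frob_iff] at hn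
  push Not at hn
  obtain ⟨m, hm, hc⟩ := hn
  have hle : m ≤ constE n (p - 1) := by
    intro i
    rw [g3_constE_apply]
    have := hm i
    omega
  have hadd : m + (constE n (p - 1) - m) = constE n (p - 1) := add_tsub_cancel_of_le hle
  have hdm : m.degree = e := by
    have := hf hc
    rw [Finsupp.degree_eq_weight_one]
    exact this
  have hdc : (constE n (p - 1)).degree = n * (p - 1) := by
    rw [Finsupp.degree_eq_sum]
    simp [g3_constE_apply]
  have hdw : (constE n (p - 1) - m).degree = s := by
    have h1 : (m + (constE n (p - 1) - m)).degree = n * (p - 1) := by rw [hadd, hdc]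
    rw [map_add, hdm] at h1
    omega
  refine ⟨MvPolynomial.monomial (constE n (p - 1) - m) 1, ?_, ?_⟩
  · exact MvPolynomial.isHomogeneous_monomial _ hdw
  · have : MvPolynomial.coeff (m + (constE n (p - 1) - m))
        (f * MvPolynomial.monomial (constE n (p - 1) - m) 1) = MvPolynomial.coeff m f * 1 :=
      MvPolynomial.coeff_mul_monomial _ _ _ _
    rw [hadd, mul_one] at this
    rw [this]
    exact hc

end Pool.Agent.Helper805_at
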