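import Mathlib
import Pool.Agent.Helper805_at.Defs

set_option autoImplicit false

namespace Pool.Agent.Helper805_at

open Finset



theorem at_lf_zero {k : Type*} [CommRing k] {n : ℕ} : lf (0 : Fin n → k) = 0 := by
  unfold lf
  simp

theorem at_lf_add {k : Type*} [CommRing k] {n : ℕ} (x y : Fin n → k) :
    lf (x + y) = lf x + lf y := by
  unfold lf
  rw [← Finset.sum_add_distrib]
  refine Finset.sum_congr rfl fun l _ => ?_
  rw [Pi.add_apply, MvPolynomial.C_add, add_mul]

theorem at_lf_smul {k : Type*} [CommRing k] {n : ℕ} (a : k) (x : Fin n → k) :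
    lf (a • x) = a • lf x := by
  unfold lf
  rw [Finset.smul_sum]
  refine Finset.sum_congr rfl fun l _ => ?_
  rw [Pi.smul_apply, smul_eq_mul, MvPolynomial.C_mul, MvPolynomial.smul_eq_C_mul, mul_assoc]

theorem at_lf_single {k : Type*} [CommRing k] {n : ℕ} (r : Fin n) :
    lf (Pi.single r (1 : k)) = MvPolynomial.X r := by
  classical
  unfold lf
  rw [Finset.sum_eq_single r]
  · simp
  · intro l _ hl
    rw [Pi.single_eq_of_ne hl]
    simp
  · intro h
    exact absurd (Finset.mem_univ r) h

theorem at_step {F : Type*} [Field F] {J : Type*} [Fintype J] [DecidableEq J] (n s : ℕ) (v : J → Fin n → F)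
    (hgen : ∀ T : Finset J, T.card = n → LinearIndependent F (fun i : T => v i))
    (hs : s + n ≤ Fintype.card J) (x : Fin n → F) (S : Finset J) (hS : S.card = s) :
    lf x * ∏ i ∈ S, lf (v i) ∈
      Submodule.span F {w : MvPolynomial (Fin n) F | ∃ S : Finset J, S.card = s + 1 ∧ w = ∏ i ∈ S, lf (v i)} := by
  have hc : n ≤ Sᶜ.card := by
    rw [Finset.card_compl]; omega
  obtain ⟨T, hT, hTn⟩ := Finset.exists_subset_card_eq hc
  have hli := hgen T hTn
  have htop : Submodule.span F (Set.range (fun i : T => v i)) = ⊤ := by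
    apply hli.span_eq_top_of_card_eq_finrank'
    rw [Module.finrank_fin_fun, Fintype.card_coe, hTn]
  have hx : x ∈ Submodule.span F (Set.range (fun i : T => v i)) := by
    rw [htop]; trivial
  induction hx using Submodule.span_induction with
  | mem y hy =>
    obtain ⟨i, rfl⟩ := hy
    have hi : (i : J) ∉ S := Finset.mem_compl.1 (hT i.2)
    refine Submodule.subset_span ⟨insert (i : J) S, ?_, ?_⟩
    · rw [Finset.card_insert_of_notMem hi, hS]
    · rw [Finset.prod_insert hi]
  | zero => rw [at_lf_zero, zero_mul]; exact Submodule.zero_mem _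
  | add y z _ _ hy hz => rw [at_lf_add, add_mul]; exact Submodule.add_mem _ hy hz
  | smul a y _ hy => rw [at_lf_smul, smul_mul_assoc]; exact Submodule.smul_mem _ _ hy

theorem at_step' {F : Type*} [Field F] {J : Type*} [Fintype J] [DecidableEq J] (n s : ℕ) (v : J → Fin n → F)
    (hgen : ∀ T : Finset J, T.card = n → LinearIndependent F (fun i : T => v i))
    (hs : s + n ≤ Fintype.card J) (x : Fin n → F) (u : MvPolynomial (Fin n) F)
    (hu : u ∈ Submodule.span F {w : MvPolynomial (Fin n) F | ∃ S : Finset J, S.card = s ∧ w = ∏ i ∈ S, lf (v i)}) :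
    lf x * u ∈
      Submodule.span F {w : MvPolynomial (Fin n) F | ∃ S : Finset J, S.card = s + 1 ∧ w = ∏ i ∈ S, lf (v i)} := by
  induction hu using Submodule.span_induction with
  | mem y hy =>
    obtain ⟨S, hS, rfl⟩ := hy
    exact at_step n s v hgen hs x S hS
  | zero => rw [mul_zero]; exact Submodule.zero_mem _
  | add y z _ _ hy hz => rw [mul_add]; exact Submodule.add_mem _ hy hz
  | smul a y _ hy => rw [mul_smul_comm]; exact Submodule.smul_mem _ _ hy

theorem span_prod {F : Type*} [Field F] {J : Type*} [Fintype J] [DecidableEq J] (n s : ℕ) (v : J → Fin n → F)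
    (hgen : ∀ T : Finset J, T.card = n → LinearIndependent F (fun i : T => v i))
    (hs : s + n ≤ Fintype.card J + 1) (u : MvPolynomial (Fin n) F) (hu : u.IsHomogeneous s) :
    u ∈ Submodule.span F {w : MvPolynomial (Fin n) F | ∃ S : Finset J, S.card = s ∧ w = ∏ i ∈ S, lf (v i)} := by
  classical
  induction s generalizing u with
  | zero =>
    have h1 : u = MvPolynomial.C (MvPolynomial.coeff 0 u) :=
      MvPolynomial.totalDegree_eq_zero_iff_eq_C.1 (Nat.le_zero.1 hu.totalDegree_le)
    rw [h1]
    have h2 : (MvPolynomial.C (MvPolynomial.coeff 0 u) : MvPolynomial (Fin n) F) =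
        (MvPolynomial.coeff 0 u) • (1 : MvPolynomial (Fin n) F) := by
      rw [MvPolynomial.smul_eq_C_mul, mul_one]
    rw [h2]
    exact Submodule.smul_mem _ _ (Submodule.subset_span ⟨∅, by simp, by simp⟩)
  | succ s ih =>
    rw [MvPolynomial.as_sum u]
    refine Submodule.sum_mem _ fun m hm => ?_
    have hdeg : m.degree = s + 1 := by
      by_contra hne
      exact (MvPolynomial.mem_support_iff.1 hm) (hu.coeff_eq_zero hne)
    have hex : ∃ r, m r ≠ 0 := by
      by_contra hcon
      push Not at hcon
      have : m = 0 := Finsupp.ext hcon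
      rw [this] at hdeg
      simp at hdeg
    obtain ⟨r, hr⟩ := hex
    have hle : Finsupp.single r 1 ≤ m := by
      rw [Finsupp.single_le_iff]; omega
    have hm2 : Finsupp.single r 1 + (m - Finsupp.single r 1) = m := add_tsub_cancel_of_le hle
    have hmon : MvPolynomial.monomial m (MvPolynomial.coeff m u) =
        lf (Pi.single r (1 : F)) * MvPolynomial.monomial (m - Finsupp.single r 1) (MvPolynomial.coeff m u) := by
      rw [at_lf_single]
      have : (MvPolynomial.X r : MvPolynomial (Fin n) F) = MvPolynomial.monomial (Finsupp.single r 1) 1 := rfl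
      rw [this, MvPolynomial.monomial_mul, one_mul, hm2]
    rw [hmon]
    refine at_step' n s v hgen (by omega) _ _ (ih (by omega) _ ?_)
    apply MvPolynomial.isHomogeneous_monomial
    have h3 : (Finsupp.single r 1 + (m - Finsupp.single r 1)).degree = s + 1 := by rw [hm2, hdeg]
    rw [map_add, Finsupp.degree_single] at h3
    omega

end Pool.Agent.Helper805_at
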