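import Mathlib
import Pool.Agent.Helper805_at.Defs
import Pool.Agent.Helper805_at.G1

set_option autoImplicit false

namespace Pool.Agent.Helper805_at

open Finset




theorem g7_fun {F : Type*} [Field F] {n : ℕ} (φ : (Fin n → F) →ₗ[F] F) (z : Fin n → F) :
    ∑ r, φ (Pi.single r 1) * z r = φ z := by
  rw [LinearMap.pi_apply_eq_sum_univ φ z]
  refine Finset.sum_congr rfl fun r _ => ?_
  have h : (Pi.single r 1 : Fin n → F) = fun s => if r = s then 1 else 0 := by
    funext s
    simp [Pi.single_apply, eq_comm]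
  rw [h, smul_eq_mul, mul_comm]

theorem g7_dual {F : Type*} [Field F] {J : Type*} [DecidableEq J] (n : ℕ) (v : J → Fin n → F)
    (T : Finset J) (hT : T.card = n) (hli : LinearIndependent F (fun i : T => v i)) (j : J)
    (hj : j ∈ T) : ∃ w : Fin n → F, (∑ r, w r * v j r = 1) ∧
      ∀ i ∈ T, i ≠ j → ∑ r, w r * v i r = 0 := by
  classical
  have : Nonempty T := ⟨⟨j, hj⟩⟩
  let b := basisOfLinearIndependentOfCardEqFinrank hli (by simp [hT])
  have hb : ∀ i : T, b i = v i := fun i => by
    simp [b, basisOfLinearIndependentOfCardEqFinrank]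
  refine ⟨fun r => b.coord ⟨j, hj⟩ (Pi.single r 1), ?_, ?_⟩
  · have h1 : b.coord ⟨j, hj⟩ (v j) = 1 := by
      rw [← hb ⟨j, hj⟩]
      simp
    exact (g7_fun (b.coord ⟨j, hj⟩) (v j)).trans h1
  · intro i hi hij
    have h1 : b.coord ⟨j, hj⟩ (v i) = 0 := by
      have h2 := hb ⟨i, hi⟩
      simp only at h2
      rw [← h2]
      rw [Module.Basis.coord_apply, Module.Basis.repr_self, Finsupp.single_apply, if_neg]
      intro h
      exact hij (congrArg Subtype.val h)
    exact (g7_fun (b.coord ⟨j, hj⟩) (v i)).trans h1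

theorem g7_sum {F : Type*} [Field F] {n : ℕ}
    (E : Fin n → Derivation F (MvPolynomial (Fin n) F) (MvPolynomial (Fin n) F))
    (f : MvPolynomial (Fin n) F) : (∑ r, E r) f = ∑ r, E r f := by
  have h := map_sum (Derivation.coeFnAddMonoidHom (R := F) (A := MvPolynomial (Fin n) F)
    (M := MvPolynomial (Fin n) F)) E Finset.univ
  have h2 := congrFun h f
  rw [Finset.sum_apply] at h2
  exact h2

theorem g7_prod_zero {F : Type*} [Field F] {J : Type*} [DecidableEq J] {n : ℕ}
    (D : Derivation F (MvPolynomial (Fin n) F) (MvPolynomial (Fin n) F))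
    (l : J → MvPolynomial (Fin n) F) (a : J → ℕ) (S : Finset J) (h : ∀ i ∈ S, D (l i) = 0) :
    D (∏ i ∈ S, l i ^ a i) = 0 := by
  induction S using Finset.induction_on with
  | empty => simp
  | insert x s hx ih =>
    rw [Finset.prod_insert hx, Derivation.leibniz, ih fun i hi => h i (Finset.mem_insert_of_mem hi),
      Derivation.leibniz_pow, h x (Finset.mem_insert_self x s)]
    simp

theorem g7_prod_mul {F : Type*} [Field F] {J : Type*} [DecidableEq J] {n : ℕ}
    (D : Derivation F (MvPolynomial (Fin n) F) (MvPolynomial (Fin n) F))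
    (l : J → MvPolynomial (Fin n) F) (a : J → ℕ) (S : Finset J) :
    ∃ h : MvPolynomial (Fin n) F, D (∏ i ∈ S, l i ^ a i) * ∏ i ∈ S, l i =
      h * ∏ i ∈ S, l i ^ a i := by
  induction S using Finset.induction_on with
  | empty => exact ⟨0, by simp⟩
  | insert x s hx ih =>
    obtain ⟨h, hh⟩ := ih
    rw [Finset.prod_insert hx, Finset.prod_insert hx, Derivation.leibniz, Derivation.leibniz_pow]
    simp only [smul_eq_mul, nsmul_eq_mul]
    rcases Nat.eq_zero_or_pos (a x) with h0 | h0
    · refine ⟨h * l x, ?_⟩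
      rw [h0]
      simp only [Nat.cast_zero, zero_mul, mul_zero, add_zero, pow_zero, one_mul]
      linear_combination (l x) * hh
    · refine ⟨h * l x + (a x : MvPolynomial (Fin n) F) * D (l x) * ∏ i ∈ s, l i, ?_⟩
      have h1 : l x ^ a x = l x ^ (a x - 1) * l x := by
        rw [← pow_succ]
        congr 1
        omega
      rw [h1]
      linear_combination (l x ^ (a x - 1) * l x * l x) * hh

theorem deriv_rel {F : Type*} [Field F] {J : Type*} [Fintype J] [DecidableEq J] (p : ℕ) (hp : p.Prime) [CharP F p]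
    (n : ℕ) (v : J → Fin n → F) (a : J → ℕ) (T : Finset J) (hT : T.card = n)
    (hli : LinearIndependent F (fun i : T => v i)) (j : J) (hj : j ∈ T) (h0 : a j ≠ 0) (hlt : a j < p)
    (hmem : ∏ i, lf (v i) ^ a i ∈ frob F p n) :
    (∏ i, lf (v i) ^ (Function.update a j (a j - 1)) i) * ∏ i ∈ Tᶜ, lf (v i) ∈ frob F p n := by
  obtain ⟨w, hw1, hw0⟩ := g7_dual n v T hT hli j hj
  let D : Derivation F (MvPolynomial (Fin n) F) (MvPolynomial (Fin n) F) :=
    MvPolynomial.mkDerivation F fun l => MvPolynomial.C (w l)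
  have hD : ∀ f, D f = ∑ r, MvPolynomial.pderiv r f * MvPolynomial.C (w r) := by
    intro f
    have h1 : D = ∑ r, w r • MvPolynomial.pderiv r := by
      apply MvPolynomial.derivation_ext
      intro l
      simp only [D, MvPolynomial.mkDerivation_X]
      rw [g7_sum]
      simp only [Derivation.smul_apply, MvPolynomial.pderiv_X]
      rw [Finset.sum_eq_single l]
      · simp [MvPolynomial.smul_eq_C_mul]
      · intro b _ hb
        rw [Pi.single_apply, if_neg (fun h => hb h.symm)]
        simp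
      · simp
    rw [h1, g7_sum]
    simp only [Derivation.smul_apply, MvPolynomial.smul_eq_C_mul]
    exact Finset.sum_congr rfl fun r _ => mul_comm _ _
  have hDfrob : ∀ f ∈ frob F p n, D f ∈ frob F p n := by
    intro f hf
    rw [hD]
    exact Ideal.sum_mem _ fun r _ => Ideal.mul_mem_right _ _ (frob_pderiv p n f hf r)
  have hDl : ∀ z : Fin n → F, D (lf z) = MvPolynomial.C (∑ r, w r * z r) := by
    intro z
    unfold lf
    rw [map_sum, map_sum]
    refine Finset.sum_congr rfl fun l _ => ?_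
    rw [← MvPolynomial.smul_eq_C_mul, Derivation.map_smul]
    simp only [D, MvPolynomial.mkDerivation_X]
    rw [MvPolynomial.smul_eq_C_mul, ← map_mul, mul_comm]
  have hj1 : D (lf (v j)) = 1 := by rw [hDl, hw1, map_one]
  have hP : D (∏ i ∈ T.erase j, lf (v i) ^ a i) = 0 :=
    g7_prod_zero D (fun i => lf (v i)) a _ fun i hi => by
      rw [hDl, hw0 i (Finset.mem_of_mem_erase hi) (Finset.ne_of_mem_erase hi), map_zero]
  obtain ⟨h, hh⟩ := g7_prod_mul D (fun i => lf (v i)) a Tᶜ
  set P := ∏ i ∈ T.erase j, lf (v i) ^ a i with hPdef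
  set Q := ∏ i ∈ Tᶜ, lf (v i) ^ a i with hQdef
  set M := ∏ i ∈ Tᶜ, lf (v i) with hMdef
  have hf : ∏ i, lf (v i) ^ a i = lf (v j) ^ a j * P * Q := by
    rw [← Finset.prod_mul_prod_compl T, ← Finset.mul_prod_erase T _ hj]
  have hu : ∏ i, lf (v i) ^ (Function.update a j (a j - 1)) i =
      lf (v j) ^ (a j - 1) * P * Q := by
    rw [← Finset.prod_mul_prod_compl T, ← Finset.mul_prod_erase T _ hj, Function.update_self]
    congr 1
    · congr 1
      refine Finset.prod_congr rfl fun i hi => ?_
      rw [Function.update_of_ne (Finset.ne_of_mem_erase hi)]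
    · refine Finset.prod_congr rfl fun i hi => ?_
      have hij : i ≠ j := fun h => (Finset.mem_compl.mp hi) (h ▸ hj)
      rw [Function.update_of_ne hij]
  rw [hu]
  have hm := hDfrob _ hmem
  have key : D (∏ i, lf (v i) ^ a i) * M =
      MvPolynomial.C ((a j : ℕ) : F) * (lf (v j) ^ (a j - 1) * P * Q * M) +
        h * ∏ i, lf (v i) ^ a i := by
    rw [hf, Derivation.leibniz, Derivation.leibniz, Derivation.leibniz_pow, hP, hj1]
    simp only [smul_eq_mul, nsmul_eq_mul, mul_one, mul_zero, zero_add]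
    have h2 : (MvPolynomial.C ((a j : ℕ) : F) : MvPolynomial (Fin n) F) = (a j : MvPolynomial (Fin n) F) := by
      simp
    rw [h2]
    linear_combination (lf (v j) ^ a j * P) * hh
  have h3 : MvPolynomial.C ((a j : ℕ) : F) * (lf (v j) ^ (a j - 1) * P * Q * M) ∈ frob F p n := by
    have h4 : MvPolynomial.C ((a j : ℕ) : F) * (lf (v j) ^ (a j - 1) * P * Q * M) =
        D (∏ i, lf (v i) ^ a i) * M - h * ∏ i, lf (v i) ^ a i := by rw [key]; ring
    rw [h4]
    exact Ideal.sub_mem _ (Ideal.mul_mem_right _ _ hm) (Ideal.mul_mem_left _ _ hmem)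
  have h5 : ((a j : ℕ) : F) ≠ 0 := by
    intro h6
    have h7 := (CharP.cast_eq_zero_iff F p (a j)).mp h6
    exact absurd (Nat.le_of_dvd (Nat.pos_of_ne_zero h0) h7) (not_le.mpr hlt)
  have h8 : lf (v j) ^ (a j - 1) * P * Q * M =
      MvPolynomial.C (((a j : ℕ) : F)⁻¹) *
        (MvPolynomial.C ((a j : ℕ) : F) * (lf (v j) ^ (a j - 1) * P * Q * M)) := by
    rw [← mul_assoc, ← map_mul, inv_mul_cancel₀ h5, map_one, one_mul]
  rw [h8]
  exact Ideal.mul_mem_left _ _ h3

end Pool.Agent.Helper805_at
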