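import Mathlib
import Pool.Agent.Helper805_at.Defs
import Pool.Agent.Helper805_at.G2
import Pool.Agent.Helper805_at.G3
import Pool.Agent.Helper805_at.G4
import Pool.Agent.Helper805_at.G5

set_option autoImplicit false

namespace Pool.Agent.Helper805_at

open Finset









theorem g6_lf_hom {k : Type*} [CommRing k] {n : ℕ} (z : Fin n → k) : (lf z).IsHomogeneous 1 := by
  unfold lf
  apply MvPolynomial.IsHomogeneous.sum
  intro l _
  have h := (MvPolynomial.isHomogeneous_C (Fin n) (z l)).mul (MvPolynomial.isHomogeneous_X k l)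
  rwa [zero_add] at h

theorem g6_prod_hom {k : Type*} [CommRing k] {J : Type*} [Fintype J] {n : ℕ} (v : J → Fin n → k)
    (a : J → ℕ) : (∏ i, lf (v i) ^ a i).IsHomogeneous (∑ i, a i) := by
  apply MvPolynomial.IsHomogeneous.prod
  intro i _
  have h := (g6_lf_hom (v i)).pow (a i)
  rwa [one_mul] at h

theorem g6_update {k : Type*} [CommRing k] {J : Type*} [Fintype J] [DecidableEq J] {n : ℕ}
    (v : J → Fin n → k) (a : J → ℕ) (j : J) (h0 : a j ≠ 0) :
    (∏ i, lf (v i) ^ (Function.update a j (a j - 1)) i) * lf (v j) = ∏ i, lf (v i) ^ a i := by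
  rw [← Finset.mul_prod_erase Finset.univ (fun i => lf (v i) ^ (Function.update a j (a j - 1)) i)
      (Finset.mem_univ j),
    ← Finset.mul_prod_erase Finset.univ (fun i => lf (v i) ^ a i) (Finset.mem_univ j)]
  have h1 : ∏ i ∈ Finset.univ.erase j, lf (v i) ^ (Function.update a j (a j - 1)) i =
      ∏ i ∈ Finset.univ.erase j, lf (v i) ^ a i := by
    apply Finset.prod_congr rfl
    intro i hi
    rw [Function.update_of_ne (Finset.ne_of_mem_erase hi)]
  rw [h1, Function.update_self]
  have h2 : lf (v j) ^ a j = lf (v j) ^ (a j - 1) * lf (v j) := by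
    rw [← pow_succ, Nat.sub_add_cancel (Nat.one_le_iff_ne_zero.2 h0)]
  rw [h2]
  ring

theorem g6_sub {n : ℕ} (m : Fin n →₀ ℕ) (r : ℕ) (hr : r ≤ m.degree) :
    ∃ m1 : Fin n →₀ ℕ, m1 ≤ m ∧ m1.degree = r := by
  induction r with
  | zero => exact ⟨0, by intro i; simp, by simp⟩
  | succ r ih =>
    obtain ⟨m1, hle, hd⟩ := ih (by omega)
    have hex : ∃ i, m1 i < m i := by
      by_contra hcon
      push Not at hcon
      have h1 : m.degree ≤ m1.degree := by
        rw [Finsupp.degree_eq_sum, Finsupp.degree_eq_sum]
        exact Finset.sum_le_sum fun i _ => hcon i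
      omega
    obtain ⟨i, hi⟩ := hex
    refine ⟨m1 + Finsupp.single i 1, ?_, ?_⟩
    · intro l
      rw [Finsupp.add_apply]
      by_cases hl : i = l
      · subst hl
        rw [Finsupp.single_eq_same]
        omega
      · rw [Finsupp.single_eq_of_ne (Ne.symm hl)]
        exact hle l
    · rw [map_add, hd, Finsupp.degree_single]

theorem g6_constE {n m : ℕ} (i : Fin n) : constE n m i = m := rfl

theorem not_mem_frob {F : Type*} [Field F] {J : Type*} [Fintype J] [DecidableEq J] (p : ℕ) (hp : p.Prime) [CharP F p]
    (n : ℕ) (v : J → Fin n → F) (hn : n ≤ Fintype.card J)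
    (hgen : ∀ T : Finset J, T.card = n → LinearIndependent F (fun i : T => v i))
    (a : J → ℕ) (ha : ∀ j, a j < p) (hsum : ∑ j, (a j + 1) ≤ p * n + 1) :
    ∏ j, lf (v j) ^ a j ∉ frob F p n := by
  induction hN : ∑ j, a j generalizing a with
  | zero =>
    have h0 : ∀ j, a j = 0 := by
      intro j
      exact (Finset.sum_eq_zero_iff.1 hN) j (Finset.mem_univ j)
    have h1 : ∏ j, lf (v j) ^ a j = 1 := by
      apply Finset.prod_eq_one
      intro j _
      rw [h0 j, pow_zero]
    rw [h1]
    intro hmem
    have h2 := (mem_frob_iff p n (1 : MvPolynomial (Fin n) F)).1 hmem 0 (fun i => hp.pos)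
    simp at h2
  | succ t ih =>
    have hex : ∃ j, a j ≠ 0 := by
      by_contra hcon
      push Not at hcon
      have : ∑ j, a j = 0 := Finset.sum_eq_zero fun j _ => hcon j
      omega
    obtain ⟨j, hj0⟩ := hex
    intro hmem
    let a' : J → ℕ := Function.update a j (a j - 1)
    have hsum' : ∑ i, a' i = t := by
      have h1 := Finset.add_sum_erase Finset.univ a' (Finset.mem_univ j)
      have h2 := Finset.add_sum_erase Finset.univ a (Finset.mem_univ j)
      have h3 : ∑ i ∈ Finset.univ.erase j, a' i = ∑ i ∈ Finset.univ.erase j, a i := by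
        apply Finset.sum_congr rfl
        intro i hi
        exact Function.update_of_ne (Finset.ne_of_mem_erase hi) _ _
      have h4 : a' j = a j - 1 := Function.update_self _ _ _
      omega
    have hsa : ∑ i, (a i + 1) = ∑ i, a i + Fintype.card J := by
      rw [Finset.sum_add_distrib]
      simp
    have hsa' : ∑ i, (a' i + 1) = ∑ i, a' i + Fintype.card J := by
      rw [Finset.sum_add_distrib]
      simp
    have hlt' : ∀ i, a' i < p := by
      intro i
      by_cases hi : i = j
      · subst hi
        have h4 : a' i = a i - 1 := Function.update_self _ _ _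
        have := ha i
        omega
      · have h4 : a' i = a i := Function.update_of_ne hi _ _
        rw [h4]; exact ha i
    have hf' : ∏ i, lf (v i) ^ a' i ∉ frob F p n := ih a' hlt' (by omega) hsum'
    have hhom : (∏ i, lf (v i) ^ a' i).IsHomogeneous t := by
      rw [← hsum']
      exact g6_prod_hom v a'
    have hle : t ≤ n * (p - 1) := by
      by_contra hcon
      apply hf'
      rw [mem_frob_iff]
      intro m hm
      apply hhom.coeff_eq_zero
      have h1 : m.degree ≤ n * (p - 1) := by
        rw [Finsupp.degree_eq_sum]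
        calc ∑ i, m i ≤ ∑ _i : Fin n, (p - 1) := Finset.sum_le_sum fun i _ => by
              have := hm i
              omega
          _ = n * (p - 1) := by simp
      omega
    obtain ⟨u, hu, hcu⟩ := frob_dual (F := F) p n t (n * (p - 1) - t) hp.one_le (by omega)
      (∏ i, lf (v i) ^ a' i) hhom hf'
    apply hcu
    have hkey : ∀ S : Finset J, S.card = Fintype.card J - n →
        (∏ i, lf (v i) ^ a' i) * ∏ i ∈ S, lf (v i) ∈ frob F p n := by
      intro S hS
      by_cases hjS : j ∈ S
      · rw [← Finset.mul_prod_erase S (fun i => lf (v i)) hjS, ← mul_assoc, g6_update v a j hj0]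
        exact Ideal.mul_mem_right _ _ hmem
      · have hT : Sᶜ.card = n := by
          rw [Finset.card_compl, hS]
          omega
        have h1 := deriv_rel p hp n v a Sᶜ hT (hgen Sᶜ hT) j (Finset.mem_compl.2 hjS) hj0 (ha j) hmem
        rwa [compl_compl] at h1
    have hkey2 : ∀ w : MvPolynomial (Fin n) F, w.IsHomogeneous (Fintype.card J - n) →
        (∏ i, lf (v i) ^ a' i) * w ∈ frob F p n := by
      intro w hw
      have h1 := span_prod n (Fintype.card J - n) v hgen (by omega) w hw
      clear hw
      induction h1 using Submodule.span_induction with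
      | mem x hx =>
        obtain ⟨S, hS, rfl⟩ := hx
        exact hkey S hS
      | zero => rw [mul_zero]; exact Ideal.zero_mem _
      | add x y _ _ hx hy => rw [mul_add]; exact Ideal.add_mem _ hx hy
      | smul c x _ hx =>
        rw [MvPolynomial.smul_eq_C_mul, mul_left_comm]
        exact Ideal.mul_mem_left _ _ hx
    have hfu : (∏ i, lf (v i) ^ a' i) * u ∈ frob F p n := by
      rw [MvPolynomial.as_sum u, Finset.mul_sum]
      apply Ideal.sum_mem
      intro m hm
      have hdeg : m.degree = n * (p - 1) - t := by
        by_contra hcon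
        exact MvPolynomial.mem_support_iff.1 hm (hu.coeff_eq_zero hcon)
      have hnp : n * (p - 1) + n = p * n := by
        have h1 : 1 ≤ p := hp.one_le
        obtain ⟨q, rfl⟩ : ∃ q, p = q + 1 := ⟨p - 1, by omega⟩
        rw [Nat.add_sub_cancel]
        ring
      obtain ⟨m1, hm1, hd1⟩ := g6_sub m (Fintype.card J - n) (by omega)
      have hsplit : MvPolynomial.monomial m (MvPolynomial.coeff m u) =
          MvPolynomial.monomial m1 (1 : F) *
            MvPolynomial.monomial (m - m1) (MvPolynomial.coeff m u) := by
        rw [MvPolynomial.monomial_mul, one_mul, add_tsub_cancel_of_le hm1]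
      rw [hsplit, ← mul_assoc]
      exact Ideal.mul_mem_right _ _ (hkey2 _ (MvPolynomial.isHomogeneous_monomial _ hd1))
    refine (mem_frob_iff p n _).1 hfu (constE n (p - 1)) (fun i => ?_)
    rw [g6_constE]
    have := hp.pos
    omega


end Pool.Agent.Helper805_at
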