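-- proved (exists_complement; helper g7_lf_hom); statement unchanged
import Mathlib
import Pool.Agent.Helper805_at.Defs
import Pool.Agent.Helper805_at.G3
import Pool.Agent.Helper805_at.G4
import Pool.Agent.Helper805_at.G6

set_option autoImplicit false

namespace Pool.Agent.Helper805_at

open Finset








theorem g7_lf_hom {k : Type*} [CommRing k] {n : ℕ} (z : Fin n → k) : (lf z).IsHomogeneous 1 := by
  unfold lf
  exact MvPolynomial.IsHomogeneous.sum _ _ _ fun i _ => MvPolynomial.isHomogeneous_C_mul_X _ _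

theorem exists_complement {F : Type*} [Field F] {J : Type*} [Fintype J] [DecidableEq J] (p : ℕ) (hp : p.Prime)
    [CharP F p] (n : ℕ) (v : J → Fin n → F) (hn : n ≤ Fintype.card J)
    (hgen : ∀ T : Finset J, T.card = n → LinearIndependent F (fun i : T => v i))
    (c : J → ℕ) (hc1 : ∀ j, 1 ≤ c j) (hc2 : ∀ j, c j ≤ p) (hsum : ∑ j, c j = p * n) :
    ∃ T : Finset J, T.card = n ∧ MvPolynomial.coeff (constE n (p - 1))
      ((∏ j, lf (v j) ^ (c j - 1)) * ∏ j ∈ Tᶜ, lf (v j)) ≠ 0 := by
  classical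
  have hsum1 : ∑ j, ((c j - 1) + 1) = p * n := by
    rw [← hsum]
    exact Finset.sum_congr rfl fun j _ => Nat.sub_add_cancel (hc1 j)
  have hsum2 : ∑ j, (c j - 1) + Fintype.card J = p * n := by
    rw [← hsum1, Finset.sum_add_distrib]
    simp
  have hp1 : 1 ≤ p := hp.one_lt.le
  have hnot : ∏ j, lf (v j) ^ (c j - 1) ∉ frob F p n := by
    refine not_mem_frob p hp n v hn hgen (fun j => c j - 1) (fun j => ?_) ?_
    · have := hc1 j
      have := hc2 j
      show c j - 1 < p
      omega
    · rw [hsum1]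
      omega
  have hhom : (∏ j, lf (v j) ^ (c j - 1)).IsHomogeneous (∑ j, (c j - 1)) := by
    refine MvPolynomial.IsHomogeneous.prod _ _ _ fun j _ => ?_
    have := (g7_lf_hom (v j)).pow (c j - 1)
    rwa [one_mul] at this
  have hes : ∑ j, (c j - 1) + (Fintype.card J - n) = n * (p - 1) := by
    have h1 : n * (p - 1) + n = p * n := by
      obtain ⟨q, rfl⟩ : ∃ q, p = q + 1 := ⟨p - 1, by omega⟩
      rw [Nat.add_sub_cancel]
      ring
    omega
  obtain ⟨u, hu, hcoef⟩ := frob_dual p n _ _ hp1 hes _ hhom hnot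
  have hspan := span_prod n (Fintype.card J - n) v hgen (by omega) u hu
  by_contra hcon
  push Not at hcon
  let φ : MvPolynomial (Fin n) F →ₗ[F] F :=
    (MvPolynomial.lcoeff F (constE n (p - 1))) ∘ₗ
      (LinearMap.mulLeft F (∏ j, lf (v j) ^ (c j - 1)))
  have hφ : ∀ w, φ w = MvPolynomial.coeff (constE n (p - 1)) ((∏ j, lf (v j) ^ (c j - 1)) * w) :=
    fun w => rfl
  have hle : Submodule.span F {w : MvPolynomial (Fin n) F |
      ∃ S : Finset J, S.card = Fintype.card J - n ∧ w = ∏ i ∈ S, lf (v i)} ≤ LinearMap.ker φ := by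
    rw [Submodule.span_le]
    rintro w ⟨S, hS, rfl⟩
    rw [SetLike.mem_coe, LinearMap.mem_ker, hφ]
    have h2 := hcon Sᶜ (by rw [Finset.card_compl, hS]; omega)
    rwa [compl_compl] at h2
  have h3 := hle hspan
  rw [LinearMap.mem_ker, hφ] at h3
  exact hcoef h3


end Pool.Agent.Helper805_at
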