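import Mathlib
import Pool.Agent.Helper805_at.Defs

set_option autoImplicit false

namespace Pool.Agent.Helper805_at

open Finset




theorem g8_snd_card (k n : ℕ) (i : Fin n) :
    Fintype.card {z : Fin k × Fin n // z.2 = i} = k := by
  rw [Fintype.card_congr (β := Fin k)
    ⟨fun z => z.1.1, fun a => ⟨(a, i), rfl⟩, fun z => by
      obtain ⟨⟨a, b⟩, h⟩ := z
      simp only at h
      subst h
      rfl, fun a => rfl⟩, Fintype.card_fin]

theorem g8_exists (k n : ℕ) (g : (Fin k × Fin n) → Fin n)
    (hg : ∀ i, Fintype.card {y : Fin k × Fin n // g y = i} = k) :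
    ∃ σ0 : Equiv.Perm (Fin k × Fin n), ∀ y, (σ0 y).2 = g y := by
  have e : ∀ i : Fin n, {y : Fin k × Fin n // g y = i} ≃ {z : Fin k × Fin n // z.2 = i} := fun i =>
    Fintype.equivOfCardEq (by rw [hg, g8_snd_card])
  refine ⟨(Equiv.sigmaFiberEquiv g).symm.trans ((Equiv.sigmaCongrRight e).trans
    (Equiv.sigmaFiberEquiv (Prod.snd : Fin k × Fin n → Fin n))), ?_⟩
  intro y
  have := (e (g y) ⟨y, rfl⟩).2
  exact this

theorem g8_card (k n : ℕ) (g : (Fin k × Fin n) → Fin n) (σ0 : Equiv.Perm (Fin k × Fin n))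
    (h0 : ∀ y, (σ0 y).2 = g y) :
    (Finset.univ.filter (fun σ : Equiv.Perm (Fin k × Fin n) => (fun y => (σ y).2) = g)).card
      = k.factorial ^ n := by
  classical
  have h1 := DomMulAct.stabilizer_card (Prod.snd : Fin k × Fin n → Fin n)
  simp only [g8_snd_card, Finset.prod_const, Finset.card_univ, Fintype.card_fin] at h1
  rw [← Fintype.card_subtype, ← h1]
  apply Fintype.card_congr
  refine ⟨fun σ => ⟨σ.1 * σ0⁻¹, ?_⟩, fun τ => ⟨τ.1 * σ0, ?_⟩, ?_, ?_⟩
  · funext z
    have h := congrFun σ.2 (σ0⁻¹ z)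
    have h2 := h0 (σ0⁻¹ z)
    have h3 : σ0 (σ0⁻¹ z) = z := Equiv.apply_symm_apply σ0 z
    rw [h3] at h2
    simp only [Function.comp, Equiv.Perm.mul_apply]
    rw [h2]
    exact h
  · funext y
    have h := congrFun τ.2 (σ0 y)
    simp only [Function.comp] at h
    simp only [Equiv.Perm.mul_apply]
    rw [h, h0]
  · intro σ
    ext y
    · simp
    · simp
  · intro τ
    ext y
    · simp
    · simp

theorem g8_coeff {R : Type*} [CommRing R] (k n : ℕ) (M : Fin n → (Fin k × Fin n) → R) :
    MvPolynomial.coeff (constE n k) (∏ y, lf (fun r => M r y)) =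
      ∑ g : (Fin k × Fin n) → Fin n,
        if (∀ i, Fintype.card {y : Fin k × Fin n // g y = i} = k) then ∏ y, M (g y) y else 0 := by
  classical
  unfold lf
  rw [Fintype.prod_sum, MvPolynomial.coeff_sum]
  apply Finset.sum_congr rfl
  intro g _
  have h1 : (∏ y, (MvPolynomial.C (M (g y) y) * MvPolynomial.X (g y) : MvPolynomial (Fin n) R)) =
      MvPolynomial.monomial (∑ y, Finsupp.single (g y) 1) (∏ y, M (g y) y) := by
    rw [MvPolynomial.monomial_sum_prod]
    apply Finset.prod_congr rfl
    intro y _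
    rw [MvPolynomial.C_mul_X_eq_monomial]
  rw [h1, MvPolynomial.coeff_monomial]
  have h2 : (∑ y, Finsupp.single (g y) 1 = constE n k) ↔
      (∀ i, Fintype.card {y : Fin k × Fin n // g y = i} = k) := by
    rw [Finsupp.ext_iff]
    apply forall_congr'
    intro i
    rw [Finsupp.finsetSum_apply, Fintype.card_subtype, Finset.card_filter]
    simp only [Finsupp.single_apply, constE, Finsupp.equivFunOnFinite_symm_apply_apply]
  simp only [h2]

theorem permanent_coeff {R : Type*} [CommRing R] (k n : ℕ) (M : Fin n → (Fin k × Fin n) → R) :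
    Matrix.permanent (Matrix.of (fun (x y : Fin k × Fin n) => M x.2 y)) =
      ((k.factorial : ℕ) : R) ^ n * MvPolynomial.coeff (constE n k) (∏ y, lf (fun r => M r y)) := by
  classical
  rw [g8_coeff, Matrix.permanent]
  simp only [Matrix.of_apply]
  rw [← Finset.sum_fiberwise (Finset.univ : Finset (Equiv.Perm (Fin k × Fin n)))
    (fun σ => fun y => (σ y).2) (fun σ => ∏ y, M (σ y).2 y), Finset.mul_sum]
  apply Finset.sum_congr rfl
  intro g _
  have h1 : ∀ σ ∈ Finset.univ.filter (fun σ : Equiv.Perm (Fin k × Fin n) => (fun y => (σ y).2) = g),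
      (∏ y, M (σ y).2 y) = ∏ y, M (g y) y := by
    intro σ hσ
    have h := (Finset.mem_filter.mp hσ).2
    apply Finset.prod_congr rfl
    intro y _
    rw [← h]
  rw [Finset.sum_congr rfl h1, Finset.sum_const]
  split_ifs with hg
  · obtain ⟨σ0, h0⟩ := g8_exists k n g hg
    rw [g8_card k n g σ0 h0, nsmul_eq_mul, Nat.cast_pow]
  · have h2 : (Finset.univ.filter (fun σ : Equiv.Perm (Fin k × Fin n) => (fun y => (σ y).2) = g)) = ∅ := by
      rw [Finset.eq_empty_iff_forall_notMem]
      intro σ hσ
      apply hg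
      intro i
      have h := (Finset.mem_filter.mp hσ).2
      refine Eq.trans ?_ (g8_snd_card k n i)
      apply Fintype.card_congr
      refine ⟨fun y => ⟨σ y.1, ?_⟩, fun z => ⟨σ⁻¹ z.1, ?_⟩, ?_, ?_⟩
      · have := congrFun h y.1
        exact this.trans y.2
      · have h3 : σ (σ⁻¹ z.1) = z.1 := Equiv.apply_symm_apply σ z.1
        have := congrFun h (σ⁻¹ z.1)
        simp only [h3] at this
        rw [← this]
        exact z.2
      · intro y
        apply Subtype.ext
        exact Equiv.symm_apply_apply σ y.1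
      · intro z
        apply Subtype.ext
        exact Equiv.apply_symm_apply σ z.1
    rw [h2, Finset.card_empty, zero_smul, mul_zero]



end Pool.Agent.Helper805_at
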