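import Mathlib
import Pool.Agent.Helper805_at.Defs
import Pool.Agent.Helper805_at.G7
import Pool.Agent.Helper805_at.G8

set_option autoImplicit false

namespace Pool.Agent.Helper805_at

open Finset





/-- The column `x.2` of the matrix `B x.1`. -/
def g9_col {F : Type*} {p n : ℕ} (B : Fin p → Matrix (Fin n) (Fin n) F) (x : Fin p × Fin n) :
    Fin n → F := fun r => B x.1 r x.2

theorem g9_lf_smul {k : Type*} [CommRing k] {n : ℕ} (t : k) (z : Fin n → k) :
    lf (fun r => t * z r) = MvPolynomial.C t * lf z := by
  unfold lf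
  rw [Finset.mul_sum]
  refine Finset.sum_congr rfl fun l _ => ?_
  rw [map_mul, mul_assoc]

theorem g9_cols_li {F : Type*} [Field F] {n : ℕ} (M : Matrix (Fin n) (Fin n) F) (h : M.det ≠ 0) :
    LinearIndependent F (fun k => fun r => M r k) := by
  have h1 : IsUnit M := (Matrix.isUnit_iff_isUnit_det M).2 (isUnit_iff_ne_zero.2 h)
  exact Matrix.linearIndependent_cols_iff_isUnit.2 h1

theorem g9_det_ne {F : Type*} [Field F] {n : ℕ} (M : Matrix (Fin n) (Fin n) F)
    (h : LinearIndependent F (fun k => fun r => M r k)) : M.det ≠ 0 := by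
  have h1 : IsUnit M := Matrix.linearIndependent_cols_iff_isUnit.1 h
  exact isUnit_iff_ne_zero.1 ((Matrix.isUnit_iff_isUnit_det M).1 h1)

theorem g9_col_ne {F : Type*} [Field F] {p n : ℕ} (B : Fin p → Matrix (Fin n) (Fin n) F)
    (hB : ∀ i, (B i).det ≠ 0) (x : Fin p × Fin n) : g9_col B x ≠ 0 :=
  (g9_cols_li (B x.1) (hB x.1)).ne_zero x.2

theorem g9_same_block {F : Type*} [Field F] {p n : ℕ} (B : Fin p → Matrix (Fin n) (Fin n) F)
    (hB : ∀ i, (B i).det ≠ 0) (i : Fin p) (k l : Fin n) (t : F)
    (h : g9_col B (i, k) = fun r => t * g9_col B (i, l) r) : k = l := by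
  by_contra hkl
  have hli := g9_cols_li (B i) (hB i)
  have := (linearIndependent_iff'.1 hli) {k, l} (fun j => if j = k then 1 else -t) ?_ k (by simp)
  · simp at this
  · rw [Finset.sum_pair hkl]
    have h2 : l ≠ k := fun h => hkl h.symm
    simp only [if_true, if_neg h2, one_smul]
    funext r
    have := congrFun h r
    simp only [g9_col] at this
    simp only [Pi.add_apply, Pi.smul_apply, smul_eq_mul, Pi.zero_apply]
    rw [this]
    ring

/-- The relation: equal up to a nonzero scalar. -/
def g9_setoid {F : Type*} [Field F] {p n : ℕ} (B : Fin p → Matrix (Fin n) (Fin n) F) :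
    Setoid (Fin p × Fin n) where
  r x y := ∃ t : F, t ≠ 0 ∧ g9_col B x = fun r => t * g9_col B y r
  iseqv := by
    refine ⟨fun x => ⟨1, one_ne_zero, by simp⟩, ?_, ?_⟩
    · rintro x y ⟨t, ht, h⟩
      refine ⟨t⁻¹, inv_ne_zero ht, ?_⟩
      funext r
      rw [h]
      simp only
      rw [← mul_assoc, inv_mul_cancel₀ ht, one_mul]
    · rintro x y z ⟨t, ht, h⟩ ⟨s, hs, h'⟩
      refine ⟨t * s, mul_ne_zero ht hs, ?_⟩
      funext r
      rw [h, h']
      simp only
      ring

theorem general_position (F : Type*) [Field F] (p : ℕ) (hp : p.Prime) [CharP F p] (n : ℕ)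
    (B : Fin p → Matrix (Fin n) (Fin n) F) (hB : ∀ i, (B i).det ≠ 0)
    (hgen : ∀ x : Fin n → Fin p × Fin n,
      (∀ i j, i ≠ j → ∀ t : F, (fun r => B (x i).1 r (x i).2) ≠ fun r => t * B (x j).1 r (x j).2) →
      LinearIndependent F (fun i => fun r => B (x i).1 r (x i).2)) :
    ∃ e : (Fin n ⊕ (Fin (p - 1) × Fin n)) ≃ (Fin p × Fin n),
      (Matrix.of fun (r k : Fin n) => B (e (Sum.inl k)).1 r (e (Sum.inl k)).2).det ≠ 0 ∧
      (Matrix.of fun (x y : Fin (p - 1) × Fin n) =>
        B (e (Sum.inr y)).1 x.2 (e (Sum.inr y)).2).permanent ≠ 0 := by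
  classical
  have hcol0 := g9_col_ne B hB
  let st := g9_setoid B
  let J := Quotient st
  letI : Fintype J := Quotient.fintype st
  let mk : Fin p × Fin n → J := fun x => Quotient.mk st x
  let out : J → Fin p × Fin n := Quotient.out
  have hmkout : ∀ j, mk (out j) = j := fun j => Quotient.out_eq j
  have houtinj : Function.Injective out := fun a b h => by
    rw [← hmkout a, ← hmkout b, h]
  -- proportional means same class
  have hprop : ∀ x y (t : F), g9_col B x = (fun r => t * g9_col B y r) → mk x = mk y := by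
    intro x y t h
    have ht : t ≠ 0 := by
      rintro rfl
      apply hcol0 x
      rw [h]
      funext r
      simp
    exact Quotient.sound ⟨t, ht, h⟩
  have hrel : ∀ x, ∃ t : F, t ≠ 0 ∧ g9_col B x = fun r => t * g9_col B (out (mk x)) r := by
    intro x
    exact Quotient.exact (hmkout (mk x)).symm
  choose t ht htc using hrel
  let v : J → Fin n → F := fun j => g9_col B (out j)
  let c : J → ℕ := fun j => (univ.filter (fun x => mk x = j)).card
  have hc1 : ∀ j, 1 ≤ c j := by
    intro j
    exact Finset.card_pos.2 ⟨out j, by simp [hmkout]⟩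
  have hc2 : ∀ j, c j ≤ p := by
    intro j
    have : (univ.filter (fun x => mk x = j)).card ≤ (univ : Finset (Fin p)).card := by
      refine Finset.card_le_card_of_injOn Prod.fst (fun _ _ => Finset.mem_coe.2 (Finset.mem_univ _)) ?_
      rintro ⟨i, k⟩ hx ⟨i', l⟩ hy h
      simp only [Finset.coe_filter, Finset.mem_univ, true_and, Set.mem_setOf_eq] at hx hy
      simp only at h
      subst h
      have h2 : mk (i, k) = mk (i, l) := hx.trans hy.symm
      obtain ⟨s, _, hs⟩ := Quotient.exact h2
      rw [g9_same_block B hB i k l s hs]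
    simpa using this
  have hsum : ∑ j, c j = p * n := by
    have := Finset.card_eq_sum_card_fiberwise (s := (univ : Finset (Fin p × Fin n)))
      (t := (univ : Finset J)) (f := mk) (fun _ _ => Finset.mem_coe.2 (Finset.mem_univ _))
    rw [Finset.card_univ, Fintype.card_prod, Fintype.card_fin, Fintype.card_fin] at this
    exact this.symm
  have hne : ∀ x y, mk x ≠ mk y → ∀ s : F,
      (fun r => B x.1 r x.2) ≠ fun r => s * B y.1 r y.2 := fun x y h s h' => h (hprop x y s h')
  have hgen' : ∀ T : Finset J, T.card = n → LinearIndependent F (fun i : T => v i) := by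
    intro T hT
    let f := T.equivFinOfCardEq hT
    have h1 := hgen (fun i => out (f.symm i)) (by
      intro i j hij
      apply hne
      rw [hmkout, hmkout]
      intro h
      exact hij (f.symm.injective (Subtype.ext h)))
    have h2 := h1.comp f f.injective
    convert h2 using 1
    funext i
    simp [v, g9_col]
    rfl
  have hn : n ≤ Fintype.card J := by
    have : Function.Injective (fun k : Fin n => mk (⟨0, hp.pos⟩, k)) := by
      intro k l h
      obtain ⟨s, _, hs⟩ := Quotient.exact h
      exact g9_same_block B hB _ k l s hs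
    simpa using Fintype.card_le_of_injective _ this
  obtain ⟨T, hT, hco⟩ := exists_complement p hp n v hn hgen' c hc1 hc2 hsum
  let S : Finset (Fin p × Fin n) := T.image out
  have hS : S.card = n := by
    rw [Finset.card_image_of_injective _ houtinj, hT]
  have hSc : (Sᶜ).card = Fintype.card (Fin (p - 1) × Fin n) := by
    rw [Finset.card_compl, hS, Fintype.card_prod, Fintype.card_prod, Fintype.card_fin,
      Fintype.card_fin, Fintype.card_fin, Nat.sub_mul, one_mul]
  let e1 : Fin n ≃ {x // x ∈ S} := (S.equivFinOfCardEq hS).symm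
  let e2 : (Fin (p - 1) × Fin n) ≃ {x // ¬ x ∈ S} :=
    Fintype.equivOfCardEq (by
      rw [← hSc, Fintype.card_subtype]
      congr 1
      ext x
      simp)
  let e : (Fin n ⊕ (Fin (p - 1) × Fin n)) ≃ (Fin p × Fin n) :=
    (Equiv.sumCongr e1 e2).trans (Equiv.sumCompl (fun x => x ∈ S))
  have hel : ∀ k, e (Sum.inl k) = (e1 k : Fin p × Fin n) := fun k => by simp [e]
  have her : ∀ y, e (Sum.inr y) = (e2 y : Fin p × Fin n) := fun y => by simp [e]
  refine ⟨e, ?_, ?_⟩
  · apply g9_det_ne
    have h1 := hgen (fun k => e (Sum.inl k)) (by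
      intro i j hij
      apply hne
      intro h
      rw [hel, hel] at h
      obtain ⟨a, _, ha⟩ := Finset.mem_image.1 (e1 i).2
      obtain ⟨b, _, hb⟩ := Finset.mem_image.1 (e1 j).2
      rw [← ha, ← hb, hmkout, hmkout] at h
      apply hij
      apply e1.injective
      apply Subtype.ext
      rw [← ha, ← hb, h])
    exact h1
  · have h1 := permanent_coeff (p - 1) n
      (fun (r : Fin n) (y : Fin (p - 1) × Fin n) => B (e (Sum.inr y)).1 r (e (Sum.inr y)).2)
    rw [h1]
    have hfac : (((p - 1).factorial : ℕ) : F) ≠ 0 := by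
      intro h
      rw [CharP.cast_eq_zero_iff F p, hp.dvd_factorial] at h
      have := hp.pos
      omega
    refine mul_ne_zero (pow_ne_zero _ hfac) ?_
    -- the product
    have h2 : (∏ y : Fin (p - 1) × Fin n,
        lf (fun r => B (e (Sum.inr y)).1 r (e (Sum.inr y)).2)) = ∏ x ∈ Sᶜ, lf (g9_col B x) := by
      have h3 : (∏ y : Fin (p - 1) × Fin n,
        lf (fun r => B (e (Sum.inr y)).1 r (e (Sum.inr y)).2)) =
          ∏ y : {x // ¬ x ∈ S}, lf (g9_col B (y : Fin p × Fin n)) := by
        rw [← e2.prod_comp]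
        refine Finset.prod_congr rfl fun y _ => ?_
        rw [her]
        rfl
      rw [h3]
      rw [← Finset.prod_subtype (Sᶜ) (p := fun x => ¬ x ∈ S) (by simp)
        (fun x => lf (g9_col B x))]
    have h4 : (∏ x ∈ Sᶜ, lf (g9_col B x)) =
        MvPolynomial.C (∏ x ∈ Sᶜ, t x) * ∏ x ∈ Sᶜ, lf (v (mk x)) := by
      rw [map_prod, ← Finset.prod_mul_distrib]
      refine Finset.prod_congr rfl fun x _ => ?_
      rw [htc x, g9_lf_smul]
    have h5 : (∏ x ∈ Sᶜ, lf (v (mk x))) =
        (∏ j, lf (v j) ^ (c j - 1)) * ∏ j ∈ Tᶜ, lf (v j) := by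
      rw [← Finset.prod_fiberwise (Sᶜ) mk]
      have h6 : (∏ j ∈ Tᶜ, lf (v j)) = ∏ j : J, if j ∈ Tᶜ then lf (v j) else 1 := by
        rw [Finset.prod_ite_mem, Finset.univ_inter]
      rw [h6, ← Finset.prod_mul_distrib]
      refine Finset.prod_congr rfl fun j _ => ?_
      have h7 : (∏ x ∈ (Sᶜ).filter (fun x => mk x = j), lf (v (mk x))) =
          lf (v j) ^ ((Sᶜ).filter (fun x => mk x = j)).card := by
        rw [← Finset.prod_const]
        refine Finset.prod_congr rfl fun x hx => ?_
        rw [(Finset.mem_filter.1 hx).2]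
      rw [h7]
      by_cases hj : j ∈ T
      · have h8 : (Sᶜ).filter (fun x => mk x = j) =
            (univ.filter (fun x => mk x = j)).erase (out j) := by
          ext x
          simp only [Finset.mem_filter, Finset.mem_compl, Finset.mem_erase, Finset.mem_univ,
            true_and]
          constructor
          · rintro ⟨hx, hxj⟩
            refine ⟨?_, hxj⟩
            rintro rfl
            exact hx (Finset.mem_image.2 ⟨j, hj, rfl⟩)
          · rintro ⟨hx, hxj⟩
            refine ⟨?_, hxj⟩
            intro hxS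
            obtain ⟨a, _, ha⟩ := Finset.mem_image.1 hxS
            apply hx
            rw [← ha] at hxj ⊢
            rw [hmkout] at hxj
            rw [hxj]
        rw [h8, Finset.card_erase_of_mem (by simp [hmkout])]
        simp [hj, c]
      · have h8 : (Sᶜ).filter (fun x => mk x = j) = univ.filter (fun x => mk x = j) := by
          ext x
          simp only [Finset.mem_filter, Finset.mem_compl, Finset.mem_univ, true_and]
          constructor
          · rintro ⟨hx, hxj⟩
            exact hxj
          · intro hxj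
            refine ⟨?_, hxj⟩
            intro hxS
            obtain ⟨a, ha, hax⟩ := Finset.mem_image.1 hxS
            rw [← hax, hmkout] at hxj
            rw [hxj] at ha
            exact hj ha
        rw [h8, if_pos (Finset.mem_compl.2 hj), ← pow_succ]
        congr 1
        have := hc1 j
        change c j = c j - 1 + 1
        omega
    rw [h2, h4, h5, MvPolynomial.coeff_C_mul]
    exact mul_ne_zero (Finset.prod_ne_zero_iff.2 fun x _ => ht x) hco

end Pool.Agent.Helper805_at
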