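import Mathlib
import Pool.Agent.Helper805_at.Defs2
import Pool.Agent.Helper805_at.G8
import Pool.Agent.Helper805_at.G9

set_option autoImplicit false

namespace Pool.Agent.Helper805_at

open Finset

theorem from_good {F : Type*} [Field F] (p : ℕ) (hp : p.Prime) [CharP F p] (n : ℕ)
    (B : Fin p → Matrix (Fin n) (Fin n) F)
    (hg : Good p n (fun (s : Fin p × Fin n) => fun r => B s.1 r s.2)) :
    ∃ e : (Fin n ⊕ (Fin (p - 1) × Fin n)) ≃ (Fin p × Fin n),
      (Matrix.of fun (r k : Fin n) => B (e (Sum.inl k)).1 r (e (Sum.inl k)).2).det ≠ 0 ∧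
      (Matrix.of fun (x y : Fin (p - 1) × Fin n) =>
        B (e (Sum.inr y)).1 x.2 (e (Sum.inr y)).2).permanent ≠ 0 := by
  classical
  obtain ⟨S, hS, hli, hco⟩ := hg
  have hSc : (Sᶜ).card = Fintype.card (Fin (p - 1) × Fin n) := by
    rw [Finset.card_compl, hS, Fintype.card_prod, Fintype.card_prod, Fintype.card_fin,
      Fintype.card_fin, Fintype.card_fin, Nat.sub_mul, one_mul]
  let e1 : Fin n ≃ {x // x ∈ S} := (S.equivFinOfCardEq hS).symm
  let e2 : (Fin (p - 1) × Fin n) ≃ {x // ¬ x ∈ S} :=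
    Fintype.equivOfCardEq (by
      rw [← hSc, Fintype.card_subtype]
      congr 1
      ext x
      simp)
  let e : (Fin n ⊕ (Fin (p - 1) × Fin n)) ≃ (Fin p × Fin n) :=
    (Equiv.sumCongr e1 e2).trans (Equiv.sumCompl (fun x => x ∈ S))
  have hel : ∀ k, e (Sum.inl k) = (e1 k : Fin p × Fin n) := fun k => by simp [e]
  have her : ∀ y, e (Sum.inr y) = (e2 y : Fin p × Fin n) := fun y => by simp [e]
  refine ⟨e, ?_, ?_⟩
  · apply g9_det_ne
    have h1 := hli.comp e1 e1.injective
    have h2 : (fun k r => Matrix.of (fun (r k : Fin n) => B (e (Sum.inl k)).1 r (e (Sum.inl k)).2) r k) =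
        (fun (i : {x // x ∈ S}) => (fun (s : Fin p × Fin n) => fun r => B s.1 r s.2) (i : Fin p × Fin n)) ∘ ⇑e1 := by
      funext k r
      simp only [Matrix.of_apply, Function.comp, hel]
    rw [h2]
    exact h1
  · have h1 := permanent_coeff (p - 1) n
      (fun (r : Fin n) (y : Fin (p - 1) × Fin n) => B (e (Sum.inr y)).1 r (e (Sum.inr y)).2)
    rw [h1]
    have hfac : (((p - 1).factorial : ℕ) : F) ≠ 0 := by
      intro h
      rw [CharP.cast_eq_zero_iff F p, hp.dvd_factorial] at h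
      have := hp.pos
      omega
    refine mul_ne_zero (pow_ne_zero _ hfac) ?_
    have h3 : (∏ y : Fin (p - 1) × Fin n,
      lf (fun r => B (e (Sum.inr y)).1 r (e (Sum.inr y)).2)) =
        ∏ y : {x // ¬ x ∈ S}, lf (fun r => B (y : Fin p × Fin n).1 r (y : Fin p × Fin n).2) := by
      rw [← e2.prod_comp]
      refine Finset.prod_congr rfl fun y _ => ?_
      rw [her]
    rw [h3]
    rw [← Finset.prod_subtype (Sᶜ) (p := fun x => ¬ x ∈ S) (by simp)
      (fun x : Fin p × Fin n => lf (fun r => B x.1 r x.2))]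
    exact hco

end Pool.Agent.Helper805_at
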