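import Mathlib
import Pool.Agent.Helper805_at.Defs2

set_option autoImplicit false

namespace Pool.Agent.Helper805_at

open Finset





section h2

variable {E Q V S : Type*} [Field E] [Field Q] [Algebra E Q] [AddCommGroup V] [Module E V]

lemma h2_om_lin (R : Finset S) (u : S → V) (L : V →ₗ[E] Q) (Z : Submodule E V) (a b : E)
    (η η' : V →ₗ[E] E) : om R u L Z (a • η - b • η') =
      algebraMap E Q a * om R u L Z η - algebraMap E Q b * om R u L Z η' := by
  unfold om
  rw [mul_sum, mul_sum, ← sum_sub_distrib]
  apply sum_congr rfl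
  intro s _
  simp only [LinearMap.sub_apply, LinearMap.smul_apply, smul_eq_mul, map_sub, map_mul]
  ring

open Classical in
lemma h2_split (R : Finset S) (u : S → V) (L : V →ₗ[E] Q) (Z Z' : Submodule E V) (hZ : Z' ≤ Z)
    (η : V →ₗ[E] E) : om R u L Z η =
      ∑ s ∈ (R.filter (fun s => u s ∈ Z)).filter (fun s => ¬ u s ∈ Z'),
        algebraMap E Q (η (u s)) * (L (u s))⁻¹ + om R u L Z' η := by
  unfold om
  rw [← Finset.sum_filter_add_sum_filter_not (R.filter (fun s => u s ∈ Z)) (fun s => ¬ u s ∈ Z')]
  congr 1
  apply sum_congr _ (fun _ _ => rfl)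
  ext s
  simp only [mem_filter, not_not]
  constructor
  · rintro ⟨⟨h1, _⟩, h3⟩; exact ⟨h1, h3⟩
  · rintro ⟨h1, h2⟩; exact ⟨⟨h1, hZ h2⟩, h2⟩

lemma h2_span_le (u : S → V) (Z : Submodule E V) (U : Finset S) (hU : ∀ s ∈ U, u s ∈ Z) :
    Submodule.span E (u '' (U : Set S)) ≤ Z := by
  rw [Submodule.span_le]
  rintro _ ⟨s, hs, rfl⟩
  exact hU s (by exact_mod_cast hs)

lemma h2_notin [DecidableEq S] (u : S → V) (v : V) (Z : Submodule E V) (U : Finset S) (i : S)
    (hU : ∀ s ∈ U, u s ∈ Z) (hi : u i ∉ Z) (hv : v ∈ Z)
    (hvU : v ∉ Submodule.span E (u '' (U : Set S))) :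
    v ∉ Submodule.span E (u '' ((insert i U : Finset S) : Set S)) := by
  rw [coe_insert, Set.image_insert_eq, Submodule.mem_span_insert]
  rintro ⟨c, x, hx, hvx⟩
  have hxZ : x ∈ Z := h2_span_le u Z U hU hx
  have hc : c • u i ∈ Z := by
    have := Z.sub_mem hv hxZ
    rwa [hvx, add_sub_cancel_right] at this
  by_cases h0 : c = 0
  · rw [h0, zero_smul, zero_add] at hvx
    exact hvU (hvx ▸ hx)
  · exact hi ((Submodule.smul_mem_iff Z h0).mp hc)

lemma h2_ind_insert [DecidableEq S] (u : S → V) (Z : Submodule E V) (U : Finset S) (i : S)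
    (hU : ∀ s ∈ U, u s ∈ Z) (hi : u i ∉ Z) (hind : LinearIndependent E (fun s : U => u s)) :
    LinearIndependent E (fun s : (insert i U : Finset S) => u s) := by
  have h1 : LinearIndepOn E u (U : Set S) := hind
  have hiU : i ∉ (U : Set S) := fun h => hi (hU i (by exact_mod_cast h))
  have h2 : LinearIndepOn E u (insert i (U : Set S)) :=
    (linearIndepOn_insert hiU).mpr ⟨h1, fun h => hi (h2_span_le u Z U hU h)⟩
  rw [← coe_insert] at h2
  exact h2

lemma h2_ind_erase [DecidableEq S] (u : S → V) (U : Finset S) (i : S)
    (hind : LinearIndependent E (fun s : U => u s)) :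
    LinearIndependent E (fun s : (U.erase i : Finset S) => u s) := by
  have h1 : LinearIndepOn E u (U : Set S) := hind
  have h2 : LinearIndepOn E u ((U.erase i : Finset S) : Set S) :=
    h1.mono (by exact_mod_cast erase_subset i U)
  exact h2

lemma h2_finrank (u : S → V) (U : Finset S) (hind : LinearIndependent E (fun s : U => u s)) :
    Module.finrank E (Submodule.span E (u '' (U : Set S))) = U.card := by
  have e : u '' (U : Set S) = Set.range (fun s : U => u s) := by
    ext x
    constructor
    · rintro ⟨s, hs, rfl⟩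
      exact ⟨⟨s, by exact_mod_cast hs⟩, rfl⟩
    · rintro ⟨s, rfl⟩
      exact ⟨s, by exact_mod_cast s.2, rfl⟩
  rw [e]
  have h := finrank_span_eq_card hind
  rw [Fintype.card_coe] at h
  exact h

lemma h2_span [FiniteDimensional E V] (u : S → V) (Z : Submodule E V) (U : Finset S)
    (hU : ∀ s ∈ U, u s ∈ Z) (hind : LinearIndependent E (fun s : U => u s))
    (hc : U.card = Module.finrank E Z) : Submodule.span E (u '' (U : Set S)) = Z := by
  apply Submodule.eq_of_le_of_finrank_eq (h2_span_le u Z U hU)
  rw [h2_finrank u U hind, hc]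

lemma h2_dual [DecidableEq S] (u : S → V) (K : Finset S)
    (hK : LinearIndependent E (fun s : K => u s)) :
    ∃ η : S → (V →ₗ[E] E), (∀ s ∈ K, ∀ t ∈ K, η t (u s) = if s = t then 1 else 0) ∧
      ∀ z ∈ Submodule.span E (u '' (K : Set S)), ∑ t ∈ K, η t z • u t = z := by
  obtain ⟨g, hg⟩ := LinearMap.exists_leftInverse_of_injective
    (Finsupp.linearCombination E (fun i : K => u i)) (LinearMap.ker_eq_bot.mpr hK)
  let η : S → (V →ₗ[E] E) := fun t =>
    if ht : t ∈ K then (Finsupp.lapply (⟨t, ht⟩ : K)) ∘ₗ g else 0
  have h1 : ∀ s ∈ K, ∀ t ∈ K, η t (u s) = if s = t then 1 else 0 := by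
    intro s hs t ht
    have e : g (u s) = Finsupp.single (⟨s, hs⟩ : K) (1 : E) := by
      have := congrArg (fun f => f (Finsupp.single (⟨s, hs⟩ : K) (1 : E))) hg
      simpa using this
    simp only [η, dif_pos ht, LinearMap.comp_apply, e, Finsupp.lapply_apply]
    by_cases hst : s = t
    · subst hst; simp
    · rw [if_neg hst, Finsupp.single_apply, if_neg]
      intro h
      exact hst (congrArg Subtype.val h)
  refine ⟨η, h1, ?_⟩
  intro z hz
  induction hz using Submodule.span_induction with
  | mem x hx =>
    obtain ⟨s, hs, rfl⟩ := hx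
    have hs' : s ∈ K := by exact_mod_cast hs
    rw [sum_eq_single s]
    · rw [h1 s hs' s hs', if_pos rfl, one_smul]
    · intro t ht hts
      rw [h1 s hs' t ht, if_neg (Ne.symm hts), zero_smul]
    · intro h; exact absurd hs' h
  | zero => simp
  | add x y _ _ hx hy =>
    simp only [map_add, add_smul, sum_add_distrib]
    rw [hx, hy]
  | smul a x _ hx =>
    simp only [map_smul, smul_eq_mul, mul_smul]
    rw [← smul_sum, hx]

end h2

theorem ind_lemma {E Q V S : Type*} [Field E] [Field Q] [Algebra E Q] [AddCommGroup V] [Module E V]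
    [FiniteDimensional E V] [DecidableEq S] (R : Finset S) (u : S → V) (hu : ∀ s ∈ R, u s ≠ 0)
    (L : V →ₗ[E] Q) (hL : Function.Injective L) (v : V) (hv : v ≠ 0)
    (hC : ∀ Z : Submodule E V, Z ≠ ⊤ → v ∈ Z → Z ≤ Submodule.span E (u '' {s | s ∈ R ∧ u s ∈ Z}) →
      Cond R u v Z)
    (r : ℕ) (Z : Submodule E V) (hr : Module.finrank E Z = r) (hZ : Z ≠ ⊤) (hvZ : v ∈ Z)
    (Y : Q →ₗ[E] E) (hY : Kill R u L v Z Y)
    (K : Finset S) (hKR : K ⊆ R) (hK : K.card = r) (hKZ : ∀ s ∈ K, u s ∈ Z)
    (hKi : LinearIndependent E (fun i : K => u i)) :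
    Y (∏ s ∈ K, (L (u s))⁻¹) = 0 := by
  classical
  have hLne : ∀ s ∈ R, L (u s) ≠ 0 := fun s hs => (map_ne_zero_iff L hL).mpr (hu s hs)
  induction r generalizing Z Y K with
  | zero =>
    have : Z = ⊥ := Submodule.finrank_eq_zero.mp hr
    rw [this, Submodule.mem_bot] at hvZ
    exact absurd hvZ hv
  | succ r ih =>
    have hspan := h2_span u Z K hKZ hKi (hK.trans hr.symm)
    obtain ⟨η, hη1, hη2⟩ := h2_dual u K hKi
    rw [hspan] at hη2
    have hcond : Cond R u v Z := by
      apply hC Z hZ hvZ
      rw [← hspan]
      apply Submodule.span_mono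
      apply Set.image_mono
      intro s hs
      have hs' : s ∈ K := by exact_mod_cast hs
      exact ⟨hKR hs', by rw [hspan]; exact hKZ s hs'⟩
    rcases hcond with hcard | ⟨Z1, b, hZ1, hvZ1, hb, hbZ1, hZle, hsp⟩
    · -- case 1
      have hsum : ∑ t ∈ K, om R u L Z (η t) * L (u t) =
          (((R.filter (fun s => u s ∈ Z)).card : ℕ) : Q) := by
        unfold om
        simp only [sum_mul]
        rw [sum_comm]
        have : ∀ s ∈ R.filter (fun s => u s ∈ Z),
            ∑ t ∈ K, algebraMap E Q (η t (u s)) * (L (u s))⁻¹ * L (u t) = 1 := by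
          intro s hs
          rw [mem_filter] at hs
          have e : ∑ t ∈ K, algebraMap E Q (η t (u s)) * L (u t) = L (u s) := by
            conv_rhs => rw [← hη2 (u s) hs.2]
            rw [map_sum]
            apply sum_congr rfl
            intro t _
            rw [map_smul, Algebra.smul_def]
          calc ∑ t ∈ K, algebraMap E Q (η t (u s)) * (L (u s))⁻¹ * L (u t)
              = (∑ t ∈ K, algebraMap E Q (η t (u s)) * L (u t)) * (L (u s))⁻¹ := by
                rw [sum_mul]; apply sum_congr rfl; intro t _; ring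
            _ = 1 := by rw [e]; exact mul_inv_cancel₀ (hLne s hs.1)
        rw [sum_congr rfl this, sum_const, nsmul_eq_mul, mul_one]
      have hkey : ((((R.filter (fun s => u s ∈ Z)).card : ℕ) : E)) • ∏ s ∈ K, (L (u s))⁻¹ =
          ∑ t ∈ K, om R u L Z (η t) * ∏ s ∈ K.erase t, (L (u s))⁻¹ := by
        rw [Algebra.smul_def, map_natCast, ← hsum, sum_mul]
        apply sum_congr rfl
        intro t ht
        rw [← mul_prod_erase K (fun s => (L (u s))⁻¹) ht]
        have := hLne t (hKR ht)
        field_simp
      have hzero : ∀ t ∈ K, Y (om R u L Z (η t) * ∏ s ∈ K.erase t, (L (u s))⁻¹) = 0 := by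
        intro t ht
        have hTi := h2_ind_erase u K t hKi
        have hTc : (K.erase t).card = r := by rw [card_erase_of_mem ht, hK]; rfl
        have hTR : K.erase t ⊆ R := (erase_subset _ _).trans hKR
        have hTZ : ∀ s ∈ K.erase t, u s ∈ Z := fun s hs => hKZ s (mem_of_mem_erase hs)
        have hTk : ∀ s ∈ K.erase t, η t (u s) = 0 := by
          intro s hs
          rw [hη1 s (mem_of_mem_erase hs) t ht, if_neg (ne_of_mem_erase hs)]
        by_cases hvT : v ∈ Submodule.span E (u '' ((K.erase t : Finset S) : Set S))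
        · set Z' := Submodule.span E (u '' ((K.erase t : Finset S) : Set S)) with hZ'
          have hZ'Z : Z' ≤ Z := h2_span_le u Z _ hTZ
          have hZ'r : Module.finrank E Z' = r := by rw [hZ', h2_finrank u _ hTi, hTc]
          have hZ't : Z' ≠ ⊤ := fun h => hZ (top_le_iff.mp (h ▸ hZ'Z))
          have hηZ' : ∀ z ∈ Z', η t z = 0 := by
            intro z hz
            induction hz using Submodule.span_induction with
            | mem x hx =>
              obtain ⟨s, hs, rfl⟩ := hx
              exact hTk s (by exact_mod_cast hs)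
            | zero => simp
            | add x y _ _ hx hy => rw [map_add, hx, hy, add_zero]
            | smul a x _ hx => rw [map_smul, hx, smul_zero]
          have hkill : Kill R u L v Z' (Y ∘ₗ LinearMap.mulLeft E (om R u L Z (η t))) := by
            intro U hUR hUc hUZ hUi hvU η' hη'
            rw [LinearMap.comp_apply, LinearMap.mulLeft_apply]
            set P := ∏ s ∈ U, (L (u s))⁻¹ with hP
            set D := (R.filter (fun s => u s ∈ Z)).filter (fun s => ¬ u s ∈ Z') with hD
            have hi0 : ∀ i ∈ D, Y ((algebraMap E Q (η t (u i)) * om R u L Z η' -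
                algebraMap E Q (η' (u i)) * om R u L Z (η t)) * ((L (u i))⁻¹ * P)) = 0 := by
              intro i hi
              rw [hD, mem_filter, mem_filter] at hi
              have hiU : i ∉ U := fun h => hi.2 (hUZ i h)
              have h := hY (insert i U) (insert_subset hi.1.1 hUR)
                (by rw [card_insert_of_notMem hiU, hUc, hZ'r, hr])
                (by
                  intro s hs
                  rcases mem_insert.mp hs with rfl | hs
                  · exact hi.1.2
                  · exact hZ'Z (hUZ s hs))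
                (h2_ind_insert u Z' U i hUZ hi.2 hUi)
                (h2_notin u v Z' U i hUZ hi.2 hvT hvU)
                (η t (u i) • η' - η' (u i) • η t)
                (by
                  intro s hs
                  rcases mem_insert.mp hs with rfl | hs
                  · simp only [LinearMap.sub_apply, LinearMap.smul_apply, smul_eq_mul]; ring
                  · simp only [LinearMap.sub_apply, LinearMap.smul_apply, smul_eq_mul]
                    rw [hη' s hs, hηZ' _ (hUZ s hs)]; ring)
              rw [h2_om_lin, prod_insert hiU] at h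
              exact h
            have hs0 : Y (∑ i ∈ D, (algebraMap E Q (η t (u i)) * om R u L Z η' -
                algebraMap E Q (η' (u i)) * om R u L Z (η t)) * ((L (u i))⁻¹ * P)) = 0 := by
              rw [map_sum]; exact sum_eq_zero hi0
            have e1 := h2_split R u L Z Z' hZ'Z (η t)
            have e2 := h2_split R u L Z Z' hZ'Z η'
            have e3 : om R u L Z' (η t) = 0 := by
              unfold om
              apply sum_eq_zero
              intro s hs
              rw [hηZ' _ (mem_filter.mp hs).2, map_zero, zero_mul]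
            rw [e3, add_zero] at e1
            have e4 : ∑ i ∈ D, (algebraMap E Q (η t (u i)) * om R u L Z η' -
                algebraMap E Q (η' (u i)) * om R u L Z (η t)) * ((L (u i))⁻¹ * P) =
                om R u L Z (η t) * (om R u L Z' η' * P) := by
              have f1 : ∀ i ∈ D, (algebraMap E Q (η t (u i)) * om R u L Z η' -
                algebraMap E Q (η' (u i)) * om R u L Z (η t)) * ((L (u i))⁻¹ * P) =
                (algebraMap E Q (η t (u i)) * (L (u i))⁻¹) * (om R u L Z η' * P) -
                (algebraMap E Q (η' (u i)) * (L (u i))⁻¹) * (om R u L Z (η t) * P) := by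
                intro i _; ring
              rw [sum_congr rfl f1, sum_sub_distrib, ← sum_mul, ← sum_mul, ← e1]
              have e2' : ∑ i ∈ D, algebraMap E Q (η' (u i)) * (L (u i))⁻¹ =
                  om R u L Z η' - om R u L Z' η' := by rw [e2]; ring
              rw [e2']; ring
            rw [← e4]; exact hs0
          have := ih Z' hZ'r hZ't hvT (Y ∘ₗ LinearMap.mulLeft E (om R u L Z (η t))) hkill
            (K.erase t) hTR hTc (fun s hs => Submodule.subset_span ⟨s, by exact_mod_cast hs, rfl⟩) hTi
          rwa [LinearMap.comp_apply, LinearMap.mulLeft_apply] at this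
        · exact hY (K.erase t) hTR (by rw [hTc, hr]) hTZ hTi hvT (η t) hTk
      have hfin : ((((R.filter (fun s => u s ∈ Z)).card : ℕ) : E)) * Y (∏ s ∈ K, (L (u s))⁻¹) = 0 := by
        rw [← smul_eq_mul, ← map_smul, hkey, map_sum]
        exact sum_eq_zero hzero
      exact (mul_eq_zero.mp hfin).resolve_left hcard
    · -- case 2
      have hb0 : b ≠ 0 := fun h => hbZ1 (h ▸ Z1.zero_mem)
      have hZ1t : Z1 ≠ ⊤ := fun h => hZ (top_le_iff.mp (h ▸ hZ1))
      have hZ1r : Module.finrank E Z1 = r := by
        have h1 := Submodule.finrank_sup_add_finrank_inf_eq Z1 (Submodule.span E {b})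
        have h2 : Z1 ⊓ Submodule.span E {b} = ⊥ := by
          rw [eq_bot_iff]
          rintro x ⟨hx1, hx2⟩
          obtain ⟨c, rfl⟩ := Submodule.mem_span_singleton.mp hx2
          by_cases hc : c = 0
          · simp [hc]
          · exact absurd ((Submodule.smul_mem_iff Z1 hc).mp hx1) hbZ1
        have h3 : Z1 ⊔ Submodule.span E {b} = Z := by
          apply le_antisymm _ hZle
          rw [sup_le_iff, Submodule.span_singleton_le_iff_mem]
          exact ⟨hZ1, hb⟩
        rw [h2, h3, finrank_bot, finrank_span_singleton hb0, hr] at h1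
        omega
      obtain ⟨s1, hs1K, hs1Z1⟩ : ∃ s1 ∈ K, u s1 ∉ Z1 := by
        by_contra hcon
        push Not at hcon
        have h1 := Submodule.finrank_mono (h2_span_le u Z1 K hcon)
        rw [hspan, hr, hZ1r] at h1
        omega
      have hs1b : u s1 ∈ Submodule.span E {b} :=
        (hsp s1 (hKR hs1K) (hKZ s1 hs1K)).resolve_left hs1Z1
      obtain ⟨c1, hc1⟩ := Submodule.mem_span_singleton.mp hs1b
      have hc10 : c1 ≠ 0 := by
        rintro rfl
        rw [zero_smul] at hc1
        exact hu s1 (hKR hs1K) hc1.symm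
      have hrest : ∀ s ∈ K.erase s1, u s ∈ Z1 := by
        intro s hs
        have hsK := mem_of_mem_erase hs
        rcases hsp s (hKR hsK) (hKZ s hsK) with h | h
        · exact h
        · exfalso
          obtain ⟨c, hc⟩ := Submodule.mem_span_singleton.mp h
          have g1 := hη1 s1 hs1K s hsK
          rw [if_neg (ne_of_mem_erase hs).symm, ← hc1, map_smul, smul_eq_mul, mul_eq_zero] at g1
          have g2 := hη1 s hsK s hsK
          rw [if_pos rfl, ← hc, map_smul, g1.resolve_left hc10, smul_zero] at g2
          exact zero_ne_one g2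
      have hkill : Kill R u L v Z1 (Y ∘ₗ LinearMap.mulLeft E ((L (u s1))⁻¹)) := by
        intro U hUR hUc hUZ hUi hvU η' hη'
        rw [LinearMap.comp_apply, LinearMap.mulLeft_apply]
        obtain ⟨ψ, hψ1, hψ2⟩ := Submodule.exists_dual_map_eq_bot_of_notMem hbZ1 inferInstance
        have hψ3 : ∀ z ∈ Z1, ψ z = 0 := by
          intro z hz
          have : ψ z ∈ Z1.map ψ := ⟨z, hz, rfl⟩
          rwa [hψ2, Submodule.mem_bot] at this
        set η'' : V →ₗ[E] E := η' - (η' b * (ψ b)⁻¹) • ψ with hη''
        have k1 : ∀ z ∈ Z1, η'' z = η' z := by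
          intro z hz
          rw [hη'', LinearMap.sub_apply, LinearMap.smul_apply, hψ3 z hz, smul_zero, sub_zero]
        have k2 : η'' b = 0 := by
          rw [hη'', LinearMap.sub_apply, LinearMap.smul_apply, smul_eq_mul]
          field_simp
          simp
        have k3 : ∀ z ∈ Submodule.span E {b}, η'' z = 0 := by
          intro z hz
          obtain ⟨c, rfl⟩ := Submodule.mem_span_singleton.mp hz
          rw [map_smul, k2, smul_zero]
        have hom : om R u L Z η'' = om R u L Z1 η' := by
          rw [h2_split R u L Z Z1 hZ1 η'']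
          have g1 : ∑ s ∈ (R.filter (fun s => u s ∈ Z)).filter (fun s => ¬ u s ∈ Z1),
              algebraMap E Q (η'' (u s)) * (L (u s))⁻¹ = 0 := by
            apply sum_eq_zero
            intro s hs
            rw [mem_filter, mem_filter] at hs
            rw [k3 _ ((hsp s hs.1.1 hs.1.2).resolve_left hs.2), map_zero, zero_mul]
          rw [g1, zero_add]
          unfold om
          apply sum_congr rfl
          intro s hs
          rw [k1 _ (mem_filter.mp hs).2]
        have hs1U : s1 ∉ U := fun h => hs1Z1 (hUZ s1 h)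
        have h := hY (insert s1 U) (insert_subset (hKR hs1K) hUR)
          (by rw [card_insert_of_notMem hs1U, hUc, hZ1r, hr])
          (by
            intro s hs
            rcases mem_insert.mp hs with rfl | hs
            · exact hKZ _ hs1K
            · exact hZ1 (hUZ s hs))
          (h2_ind_insert u Z1 U s1 hUZ hs1Z1 hUi)
          (h2_notin u v Z1 U s1 hUZ hs1Z1 hvZ1 hvU)
          η''
          (by
            intro s hs
            rcases mem_insert.mp hs with rfl | hs
            · exact k3 _ hs1b
            · rw [k1 _ (hUZ s hs), hη' s hs])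
        rw [hom, prod_insert hs1U] at h
        rw [← h]
        congr 1
        ring
      have hfin := ih Z1 hZ1r hZ1t hvZ1 (Y ∘ₗ LinearMap.mulLeft E ((L (u s1))⁻¹)) hkill
        (K.erase s1) ((erase_subset _ _).trans hKR) (by rw [card_erase_of_mem hs1K, hK]; rfl) hrest
        (h2_ind_erase u K s1 hKi)
      rw [LinearMap.comp_apply, LinearMap.mulLeft_apply,
        mul_prod_erase K (fun s => (L (u s))⁻¹) hs1K] at hfin
      exact hfin


end Pool.Agent.Helper805_at
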