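import Mathlib
import Pool.Agent.Helper805_at.Defs2
import Pool.Agent.Helper805_at.H2

set_option autoImplicit false

namespace Pool.Agent.Helper805_at

open Finset










theorem h3_lf_add {E : Type*} [Field E] {n : ℕ} (x y : Fin n → E) : lf (x + y) = lf x + lf y := by
  simp [lf, add_mul, Finset.sum_add_distrib]

theorem h3_lf_smul {E : Type*} [Field E] {n : ℕ} (a : E) (x : Fin n → E) :
    lf (a • x) = a • lf x := by
  simp [lf, MvPolynomial.smul_eq_C_mul, Finset.mul_sum, mul_assoc]

/-- `lf` as a linear map -/
noncomputable def h3_L (E : Type*) [Field E] (n : ℕ) : (Fin n → E) →ₗ[E] MvPolynomial (Fin n) E where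
  toFun := lf
  map_add' := h3_lf_add
  map_smul' := h3_lf_smul

theorem h3_L_apply {E : Type*} [Field E] {n : ℕ} (x : Fin n → E) : h3_L E n x = lf x := rfl

theorem h3_lf_inj {E : Type*} [Field E] {n : ℕ} : Function.Injective (lf : (Fin n → E) → _) := by
  intro x y hxy
  funext r
  have h := congrArg (MvPolynomial.eval (Pi.single r (1 : E))) hxy
  simpa [lf, Pi.single_apply] using h

theorem h3_lf_zero {E : Type*} [Field E] {n : ℕ} : lf (0 : Fin n → E) = 0 := by
  simp [lf]

theorem h3_lf_ne {E : Type*} [Field E] {n : ℕ} {x : Fin n → E} (hx : x ≠ 0) : lf x ≠ 0 := by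
  intro h
  exact hx (h3_lf_inj (h.trans h3_lf_zero.symm))

/-- the derivation with constant coefficients -/
noncomputable def h3_D {E : Type*} [Field E] {n : ℕ} (w : Fin n → E) :
    Derivation E (MvPolynomial (Fin n) E) (MvPolynomial (Fin n) E) :=
  ∑ r, w r • MvPolynomial.pderiv r

theorem h3_D_apply {E : Type*} [Field E] {n : ℕ} (w : Fin n → E) (g : MvPolynomial (Fin n) E) :
    h3_D w g = ∑ r, w r • MvPolynomial.pderiv r g := by
  unfold h3_D
  have h := map_sum (Derivation.coeFnAddMonoidHom : Derivation E (MvPolynomial (Fin n) E)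
    (MvPolynomial (Fin n) E) →+ _) (fun r => w r • MvPolynomial.pderiv r) Finset.univ
  have h2 := congrFun h g
  rw [Finset.sum_apply] at h2
  exact h2

theorem h3_D_lf {E : Type*} [Field E] {n : ℕ} (w z : Fin n → E) :
    h3_D w (lf z) = MvPolynomial.C (∑ r, w r * z r) := by
  rw [h3_D_apply, map_sum]
  apply Finset.sum_congr rfl
  intro r _
  have : MvPolynomial.pderiv r (lf z) = MvPolynomial.C (z r) := by
    unfold lf
    rw [map_sum]
    rw [Finset.sum_eq_single r]
    · simp
    · intro b _ hb
      simp [MvPolynomial.pderiv_X, Pi.single_apply, hb]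
    · intro h
      exact absurd (Finset.mem_univ r) h
  rw [this, MvPolynomial.smul_eq_C_mul, ← MvPolynomial.C_mul]

theorem h3_D_prod {E S : Type*} [Field E] [DecidableEq S] {n : ℕ} (w : Fin n → E)
    (A : Finset S) (F : S → MvPolynomial (Fin n) E) :
    h3_D w (∏ s ∈ A, F s) = ∑ s ∈ A, (∏ t ∈ A.erase s, F t) * h3_D w (F s) := by
  induction A using Finset.induction_on with
  | empty => simp
  | insert a A ha ih =>
    rw [Finset.prod_insert ha, Derivation.leibniz, ih, Finset.sum_insert ha, Finset.erase_insert ha]
    simp only [smul_eq_mul]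
    rw [Finset.mul_sum, add_comm]
    congr 1
    apply Finset.sum_congr rfl
    intro s hs
    have hsa : s ≠ a := fun h => ha (h ▸ hs)
    rw [Finset.erase_insert_of_ne hsa.symm, Finset.prod_insert (fun h => ha (Finset.mem_of_mem_erase h))]
    ring

theorem h3_D_coeff {E : Type*} [Field E] {p : ℕ} (hp : p.Prime) [CharP E p] {n : ℕ} (w : Fin n → E)
    (g : MvPolynomial (Fin n) E) : MvPolynomial.coeff (constE n (p - 1)) (h3_D w g) = 0 := by
  rw [h3_D_apply, MvPolynomial.coeff_sum]
  apply Finset.sum_eq_zero
  intro r _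
  rw [MvPolynomial.coeff_smul, MvPolynomial.coeff_pderiv]
  have h1 : (constE n (p - 1)) r = p - 1 := rfl
  have h2 : (((p - 1 : ℕ) : E) + 1) = 0 := by
    have h3 : (((p - 1 : ℕ) : E) + 1) = ((p - 1 + 1 : ℕ) : E) := by push_cast; ring
    rw [h3, Nat.sub_add_cancel hp.one_le]
    exact CharP.cast_eq_zero E p
  rw [h1, h2]
  simp

/-- the coefficient attached to `K` -/
noncomputable def h3_y {E S : Type*} [Field E] [DecidableEq S] (p n : ℕ) (u : S → Fin n → E)
    (R K : Finset S) : E :=
  MvPolynomial.coeff (constE n (p - 1)) (∏ s ∈ R \ K, lf (u s))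

/-- the relation from the derivation -/
theorem h3_rel {E S : Type*} [Field E] [DecidableEq S] {p : ℕ} (hp : p.Prime) [CharP E p] {n : ℕ}
    (u : S → Fin n → E) (R U : Finset S) (η : (Fin n → E) →ₗ[E] E) :
    ∑ s ∈ R \ U, η (u s) * h3_y p n u R (insert s U) = 0 := by
  have hη : ∀ z : Fin n → E, η z = ∑ r, η (Pi.single r 1) * z r := by
    intro z
    conv_lhs => rw [← LinearMap.sum_single_apply (fun _ => E) z]
    rw [map_sum]
    apply Finset.sum_congr rfl
    intro r _
    have : (Pi.single r (z r) : Fin n → E) = z r • (Pi.single r (1 : E)) := by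
      rw [← Pi.single_smul, smul_eq_mul, mul_one]
    rw [this, map_smul, smul_eq_mul, mul_comm]
  have h := h3_D_coeff hp (fun r => η (Pi.single r 1)) (∏ s ∈ R \ U, lf (u s))
  rw [h3_D_prod, MvPolynomial.coeff_sum] at h
  rw [← h]
  apply Finset.sum_congr rfl
  intro s _
  rw [h3_D_lf, ← hη, mul_comm (∏ t ∈ (R \ U).erase s, lf (u t)), MvPolynomial.coeff_C_mul]
  have : R \ insert s U = (R \ U).erase s := by
    ext x
    simp only [Finset.mem_sdiff, Finset.mem_insert, Finset.mem_erase, not_or]
    tauto
  rw [h3_y, this]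


theorem h3_sub {E V S : Type*} [Field E] [AddCommGroup V] [Module E V] {u : S → V} {K T : Finset S}
    (h : K ⊆ T) (hT : LinearIndependent E (fun i : T => u i)) :
    LinearIndependent E (fun i : K => u i) := by
  have h1 : LinearIndepOn E u (T : Set S) := hT
  have h2 : LinearIndepOn E u (K : Set S) := h1.mono (by exact_mod_cast h)
  exact h2

theorem h3_a {E S : Type*} [Field E] [Fintype S] [DecidableEq S] (p n : ℕ) (hn : 1 ≤ n)
    (u : S → Fin n → E) (hu : Good p n u) (k : S) :
    ∃ K : Finset S, K ⊆ univ.erase k ∧ K.card + 1 = n ∧ LinearIndependent E (fun i : K => u i) ∧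
      h3_y p n u (univ.erase k) K ≠ 0 := by
  obtain ⟨T, hT, hi, hc⟩ := hu
  by_cases hk : k ∈ T
  · refine ⟨T.erase k, ?_, ?_, ?_, ?_⟩
    · intro x hx
      simp only [Finset.mem_erase, Finset.mem_univ, and_true] at hx ⊢
      exact hx.1
    · rw [Finset.card_erase_of_mem hk, hT]
      omega
    · exact h3_sub (Finset.erase_subset k T) hi
    · have : univ.erase k \ T.erase k = Tᶜ := by
        ext x
        simp only [Finset.mem_sdiff, Finset.mem_erase, Finset.mem_univ, and_true, Finset.mem_compl]
        constructor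
        · rintro ⟨h1, h2⟩ h3
          exact h2 ⟨h1, h3⟩
        · intro h
          exact ⟨fun h2 => h (h2 ▸ hk), fun h2 => h h2.2⟩
      rw [h3_y, this]
      exact hc
  · have hspan : u k ∈ Submodule.span E (Set.range (fun i : T => u i)) := by
      rw [hi.span_eq_top_of_card_eq_finrank' (by rw [Fintype.card_coe, hT, Module.finrank_fin_fun])]
      exact Submodule.mem_top
    rw [Submodule.mem_span_range_iff_exists_fun] at hspan
    obtain ⟨c, hc2⟩ := hspan
    by_contra hcon
    push Not at hcon
    have hy : ∀ t ∈ T, h3_y p n u (univ.erase k) (T.erase t) = 0 := by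
      intro t ht
      apply hcon
      · intro x hx
        simp only [Finset.mem_erase, Finset.mem_univ, and_true] at hx ⊢
        exact fun h => hk (h ▸ hx.2)
      · rw [Finset.card_erase_of_mem ht, hT]
        omega
      · exact h3_sub (Finset.erase_subset t T) hi
    apply hc
    have hkc : k ∈ Tᶜ := Finset.mem_compl.2 hk
    rw [← Finset.mul_prod_erase _ _ hkc]
    have h1 : lf (u k) = ∑ i : T, c i • lf (u i) := by
      rw [← hc2, ← h3_L_apply, map_sum]
      apply Finset.sum_congr rfl
      intro i _
      rw [map_smul, h3_L_apply]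
    rw [h1, Finset.sum_mul, MvPolynomial.coeff_sum]
    apply Finset.sum_eq_zero
    intro i _
    rw [smul_mul_assoc, MvPolynomial.coeff_smul]
    have h2 : lf (u i) * ∏ x ∈ Tᶜ.erase k, lf (u x) =
        ∏ s ∈ (univ.erase k) \ (T.erase (i : S)), lf (u s) := by
      have h3 : (univ.erase k) \ (T.erase (i : S)) = insert (i : S) (Tᶜ.erase k) := by
        ext x
        simp only [Finset.mem_sdiff, Finset.mem_erase, Finset.mem_univ, and_true, Finset.mem_compl,
          Finset.mem_insert]
        constructor
        · rintro ⟨h1, h2⟩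
          by_cases hx : x = i
          · exact Or.inl hx
          · exact Or.inr ⟨h1, fun h => h2 ⟨hx, h⟩⟩
        · rintro (h | ⟨h1, h2⟩)
          · refine ⟨fun h1 => hk ?_, fun h1 => h1.1 h⟩
            rw [← h1, h]
            exact i.2
          · exact ⟨h1, fun h => h2 h.2⟩
      rw [h3, Finset.prod_insert]
      intro h
      exact (Finset.mem_compl.1 (Finset.mem_of_mem_erase h)) i.2
    rw [h2]
    have := hy i i.2
    rw [h3_y] at this
    rw [this, smul_zero]

theorem h3_b {E S : Type*} [Field E] [Fintype S] [DecidableEq S] (p n : ℕ)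
    (u : S → Fin n → E) (k : S) (v : Fin n → E) (hng : ¬ Good p n (Function.update u k v))
    (K : Finset S) (hKR : K ⊆ univ.erase k) (hK : K.card + 1 = n)
    (hKi : LinearIndependent E (fun i : K => u i))
    (hv : v ∉ Submodule.span E (u '' (K : Set S))) :
    h3_y p n u (univ.erase k) K = 0 := by
  by_contra hy
  apply hng
  have hkK : k ∉ K := fun h => by simpa using hKR h
  have hup : ∀ x, x ≠ k → Function.update u k v x = u x := fun x hx =>
    Function.update_of_ne hx _ _
  refine ⟨insert k K, ?_, ?_, ?_⟩
  · rw [Finset.card_insert_of_notMem hkK, hK]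
  · have h0 : LinearIndepOn E (Function.update u k v) (K : Set S) := by
      have : (fun x : (K : Set S) => Function.update u k v x) = fun x : (K : Set S) => u x := by
        funext x
        exact hup x (fun h => hkK (h ▸ x.2))
      show LinearIndependent E (fun x : (K : Set S) => Function.update u k v x)
      rw [this]
      exact hKi
    have h1 : LinearIndepOn E (Function.update u k v) ((insert k K : Finset S) : Set S) := by
      rw [Finset.coe_insert]
      apply h0.insert
      rw [Function.update_self]
      have : Function.update u k v '' (K : Set S) = u '' (K : Set S) := by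
        apply Set.image_congr
        intro x hx
        exact hup x (fun h => hkK (h ▸ hx))
      rw [this]
      exact hv
    exact h1
  · rw [h3_y] at hy
    have h3 : (insert k K)ᶜ = univ.erase k \ K := by
      ext x
      simp only [Finset.mem_sdiff, Finset.mem_erase, Finset.mem_univ, and_true, Finset.mem_compl,
        Finset.mem_insert, not_or]
    rw [h3]
    have h4 : ∏ s ∈ univ.erase k \ K, lf (Function.update u k v s) =
        ∏ s ∈ univ.erase k \ K, lf (u s) := by
      apply Finset.prod_congr rfl
      intro s hs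
      rw [hup s]
      intro h
      rw [h] at hs
      simp at hs
    rw [h4]
    exact hy

theorem step_lemma {E S : Type*} [Field E] [Fintype S] [DecidableEq S] (p : ℕ) (hp : p.Prime)
    [CharP E p] (n : ℕ) (u : S → Fin n → E) (hu : Good p n u)
    (k : S) (v : Fin n → E) (hv : v ≠ 0)
    (hC : ∀ Z : Submodule E (Fin n → E), Z ≠ ⊤ → v ∈ Z →
      Z ≤ Submodule.span E (u '' {s | s ∈ univ.erase k ∧ u s ∈ Z}) → Cond (univ.erase k) u v Z) :
    Good p n (Function.update u k v) := by
  by_contra hng
  have hn : 1 ≤ n := by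
    rcases Nat.eq_zero_or_pos n with h | h
    · subst h
      exact absurd (Subsingleton.elim v 0) hv
    · exact h
  have hb := h3_b p n u k v hng
  have hune : ∀ s, u s ≠ 0 := by
    obtain ⟨T, hT, hi, hc⟩ := hu
    intro s hs
    by_cases h : s ∈ T
    · exact hi.ne_zero ⟨s, h⟩ hs
    · apply hc
      rw [Finset.prod_eq_zero (Finset.mem_compl.2 h) (by rw [hs, h3_lf_zero])]
      exact MvPolynomial.coeff_zero _
  obtain ⟨K, hKR, hKc, hKi, hKy⟩ := h3_a p n hn u hu k
  obtain ⟨X, hX⟩ : ∃ X : Submodule E (Fin n → E), X = Submodule.span E (u '' (K : Set S)) :=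
    ⟨_, rfl⟩
  have hvX : v ∈ X := by
    by_contra h
    rw [hX] at h
    exact hKy (hb K hKR hKc hKi h)
  have hfin : Module.finrank E X = n - 1 := by
    have h1 : X = Submodule.span E (Set.range (fun i : K => u i)) := by
      rw [hX, Set.image_eq_range]
      rfl
    rw [h1, finrank_span_eq_card hKi, Fintype.card_coe]
    omega
  have hXtop : X ≠ ⊤ := by
    intro h
    rw [h, finrank_top, Module.finrank_fin_fun] at hfin
    omega
  let Q := FractionRing (MvPolynomial (Fin n) E)
  let ι : MvPolynomial (Fin n) E →ₗ[E] Q :=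
    (Algebra.linearMap (MvPolynomial (Fin n) E) Q).restrictScalars E
  have hι : ∀ g, ι g = algebraMap (MvPolynomial (Fin n) E) Q g := fun _ => rfl
  have hιinj : Function.Injective ι := IsFractionRing.injective (MvPolynomial (Fin n) E) Q
  obtain ⟨ρ, hρ⟩ := LinearMap.exists_leftInverse_of_injective ι (LinearMap.ker_eq_bot.2 hιinj)
  let f : Q →ₗ[E] E := (MvPolynomial.lcoeff E (constE n (p - 1))) ∘ₗ ρ
  have hf : ∀ g, f (ι g) = MvPolynomial.coeff (constE n (p - 1)) g := by
    intro g
    have h1 : ρ (ι g) = g := LinearMap.congr_fun hρ g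
    show MvPolynomial.lcoeff E (constE n (p - 1)) (ρ (ι g)) = _
    rw [h1]
    rfl
  let L : (Fin n → E) →ₗ[E] Q := ι ∘ₗ h3_L E n
  have hL : ∀ z, L z = ι (lf z) := fun _ => rfl
  have hLinj : Function.Injective L := hιinj.comp h3_lf_inj
  let P : MvPolynomial (Fin n) E := ∏ s ∈ univ.erase k, lf (u s)
  let Y : Q →ₗ[E] E := f ∘ₗ (LinearMap.mulLeft E (ι P))
  have hY : ∀ F : Q, Y F = f (ι P * F) := fun _ => rfl
  have hprod : ∀ K' : Finset S, K' ⊆ univ.erase k →
      ι P * ∏ s ∈ K', (L (u s))⁻¹ = ι (∏ s ∈ univ.erase k \ K', lf (u s)) := by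
    intro K' hK'
    have h1 : P = (∏ s ∈ univ.erase k \ K', lf (u s)) * ∏ s ∈ K', lf (u s) :=
      (Finset.prod_sdiff hK').symm
    rw [h1, hι, map_mul, mul_assoc, map_prod _ _ K', Finset.prod_inv_distrib]
    have h2 : ∏ s ∈ K', L (u s) = ∏ s ∈ K', algebraMap (MvPolynomial (Fin n) E) Q (lf (u s)) := rfl
    rw [h2, mul_inv_cancel₀, mul_one]
    · rfl
    · apply Finset.prod_ne_zero_iff.2
      intro s _ h
      apply h3_lf_ne (hune s)
      apply hιinj
      rw [hι, h, map_zero]
  have hYK : ∀ K' : Finset S, K' ⊆ univ.erase k →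
      Y (∏ s ∈ K', (L (u s))⁻¹) = h3_y p n u (univ.erase k) K' := by
    intro K' hK'
    rw [hY, hprod K' hK', hf]
    rfl
  have hKill : Kill (univ.erase k) u L v X Y := by
    intro U hUR hUc hUX hUi hvU η hη
    unfold om
    rw [Finset.sum_filter, Finset.sum_mul, map_sum]
    rw [← h3_rel hp u (univ.erase k) U η]
    symm
    rw [← Finset.sum_subset (Finset.sdiff_subset : univ.erase k \ U ⊆ univ.erase k)]
    · apply Finset.sum_congr rfl
      intro s hs
      rw [Finset.mem_sdiff] at hs
      split_ifs with hsX
      · rw [mul_assoc]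
        have h1 : (L (u s))⁻¹ * ∏ t ∈ U, (L (u t))⁻¹ = ∏ t ∈ insert s U, (L (u t))⁻¹ := by
          rw [Finset.prod_insert hs.2]
        rw [h1, ← Algebra.smul_def, map_smul, hYK, smul_eq_mul]
        intro x hx
        rcases Finset.mem_insert.1 hx with rfl | hx
        · exact hs.1
        · exact hUR hx
      · rw [zero_mul, map_zero]
        have hspanU : Submodule.span E (u '' (U : Set S)) ≤ X := by
          rw [Submodule.span_le]
          rintro x ⟨t, ht, rfl⟩
          exact hUX t ht
        have h0 : h3_y p n u (univ.erase k) (insert s U) = 0 := by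
          apply hb
          · intro x hx
            rcases Finset.mem_insert.1 hx with rfl | hx
            · exact hs.1
            · exact hUR hx
          · rw [Finset.card_insert_of_notMem hs.2, hUc, hfin]
            omega
          · have h1 : LinearIndepOn E u (U : Set S) := hUi
            have h2 : LinearIndepOn E u ((insert s U : Finset S) : Set S) := by
              rw [Finset.coe_insert]
              exact h1.insert (fun h => hsX (hspanU h))
            exact h2
          · intro hmem
            rw [Finset.coe_insert, Set.image_insert_eq, Submodule.mem_span_insert] at hmem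
            obtain ⟨a, z, hz, hvz⟩ := hmem
            by_cases ha : a = 0
            · apply hvU
              rw [hvz, ha, zero_smul, zero_add]
              exact hz
            · apply hsX
              have h5 : u s = a⁻¹ • (v - z) := by
                rw [hvz, add_sub_cancel_right, smul_smul, inv_mul_cancel₀ ha, one_smul]
              rw [h5]
              exact X.smul_mem _ (X.sub_mem hvX (hspanU hz))
        rw [h0, mul_zero]
    · intro s hs hs2
      have hsU : s ∈ U := by
        by_contra h
        exact hs2 (Finset.mem_sdiff.2 ⟨hs, h⟩)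
      rw [hη s hsU]
      simp
  have hfinal := ind_lemma (univ.erase k) u (fun s _ => hune s) L hLinj v hv hC (n - 1) X hfin
    hXtop hvX Y hKill K hKR (by omega)
    (fun s hs => by rw [hX]; exact Submodule.subset_span ⟨s, hs, rfl⟩) hKi
  rw [hYK K hKR] at hfinal
  exact hKy hfinal



end Pool.Agent.Helper805_at
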