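import Mathlib
import Pool.Agent.Helper805_at.Defs2

set_option autoImplicit false

namespace Pool.Agent.Helper805_at

open Finset




theorem h4_avoid {E V : Type*} [Field E] [Infinite E] [AddCommGroup V] [Module E V]
    (s : Finset (Submodule E V)) (hs : ⊤ ∉ s) : ∃ x : V, ∀ P ∈ s, x ∉ P := by
  have h := Subspace.biUnion_ne_univ_of_top_notMem hs
  by_contra hcon
  push Not at hcon
  apply h
  apply Set.eq_univ_of_forall
  intro x
  obtain ⟨P, hP, hx⟩ := hcon x
  exact Set.mem_biUnion (x := P) hP hx

theorem h4_lf_add {k : Type*} [CommRing k] {n : ℕ} (x y : Fin n → k) :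
    lf (x + y) = lf x + lf y := by
  unfold lf
  rw [← Finset.sum_add_distrib]
  refine Finset.sum_congr rfl fun l _ => ?_
  rw [Pi.add_apply, map_add, add_mul]

theorem h4_lf_smul {k : Type*} [CommRing k] {n : ℕ} (c : k) (x : Fin n → k) :
    lf (c • x) = MvPolynomial.C c * lf x := by
  unfold lf
  rw [Finset.mul_sum]
  refine Finset.sum_congr rfl fun l _ => ?_
  rw [Pi.smul_apply, smul_eq_mul, map_mul, mul_assoc]

/-- the kernel of the coefficient functional -/
noncomputable def h4_ker {k : Type*} [Field k] {n : ℕ} (c : Fin n →₀ ℕ)
    (R : MvPolynomial (Fin n) k) : Submodule k (Fin n → k) where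
  carrier := {x | MvPolynomial.coeff c (lf x * R) = 0}
  add_mem' := fun {x y} hx hy => by
    change MvPolynomial.coeff c (lf (x + y) * R) = 0
    have hx' : MvPolynomial.coeff c (lf x * R) = 0 := hx
    have hy' : MvPolynomial.coeff c (lf y * R) = 0 := hy
    rw [h4_lf_add, add_mul, MvPolynomial.coeff_add, hx', hy', add_zero]
  zero_mem' := by
    change MvPolynomial.coeff c (lf (0 : Fin n → k) * R) = 0
    have : lf (0 : Fin n → k) = 0 := by
      unfold lf
      simp
    rw [this, zero_mul, MvPolynomial.coeff_zero]
  smul_mem' := fun a x hx => by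
    change MvPolynomial.coeff c (lf (a • x) * R) = 0
    have hx' : MvPolynomial.coeff c (lf x * R) = 0 := hx
    rw [h4_lf_smul, mul_assoc, MvPolynomial.coeff_C_mul, hx', mul_zero]

/-- the goodness survives outside of a proper subspace -/
theorem h4_good {E S : Type*} [Field E] [Fintype S] [DecidableEq S] (p n : ℕ)
    (w : S → Fin n → E) (hw : Good p n w) (b : S) :
    ∃ P : Submodule E (Fin n → E), P ≠ ⊤ ∧ ∀ x, x ∉ P → Good p n (Function.update w b x) := by
  obtain ⟨T, hT, hli, hco⟩ := hw
  by_cases hb : b ∈ T
  · have hli' : LinearIndepOn E w (T : Set S) := hli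
    have hins : (T : Set S) = insert b ((T.erase b : Finset S) : Set S) := by
      rw [← Finset.coe_insert, Finset.insert_erase hb]
    have hnb : b ∉ ((T.erase b : Finset S) : Set S) := by
      simp
    rw [hins, linearIndepOn_insert hnb] at hli'
    refine ⟨Submodule.span E (w '' ((T.erase b : Finset S) : Set S)), ?_, ?_⟩
    · intro h
      exact hli'.2 (by rw [h]; trivial)
    · intro x hx
      refine ⟨T, hT, ?_, ?_⟩
      · have h1 : LinearIndepOn E (Function.update w b x) (T : Set S) := by
          rw [hins, linearIndepOn_insert hnb]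
          have himg : (Function.update w b x) '' ((T.erase b : Finset S) : Set S) =
              w '' ((T.erase b : Finset S) : Set S) := by
            apply Set.image_congr
            intro s hs
            rw [Function.update_of_ne]
            rintro rfl
            exact hnb hs
          refine ⟨?_, ?_⟩
          · refine hli'.1.congr ?_
            intro s hs
            rw [Function.update_of_ne]
            rintro rfl
            exact hnb hs
          · rw [himg, Function.update_self]
            exact hx
        exact h1
      · have h2 : ∏ s ∈ Tᶜ, lf (Function.update w b x s) = ∏ s ∈ Tᶜ, lf (w s) := by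
          refine Finset.prod_congr rfl fun s hs => ?_
          rw [Function.update_of_ne]
          rintro rfl
          exact (Finset.mem_compl.1 hs) hb
        rw [h2]
        exact hco
  · have hbc : b ∈ Tᶜ := Finset.mem_compl.2 hb
    refine ⟨h4_ker (constE n (p - 1)) (∏ s ∈ Tᶜ.erase b, lf (w s)), ?_, ?_⟩
    · intro h
      have h1 : w b ∈ h4_ker (constE n (p - 1)) (∏ s ∈ Tᶜ.erase b, lf (w s)) := by
        rw [h]; trivial
      have h2 : MvPolynomial.coeff (constE n (p - 1))
          (lf (w b) * ∏ s ∈ Tᶜ.erase b, lf (w s)) = 0 := h1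
      rw [Finset.mul_prod_erase Tᶜ (fun s => lf (w s)) hbc] at h2
      exact hco h2
    · intro x hx
      refine ⟨T, hT, ?_, ?_⟩
      · have h1 : (fun i : T => Function.update w b x i) = fun i : T => w i := by
          funext i
          rw [Function.update_of_ne]
          intro h
          exact hb (h ▸ i.2)
        rw [h1]
        exact hli
      · have h2 : ∏ s ∈ Tᶜ, lf (Function.update w b x s) =
            lf x * ∏ s ∈ Tᶜ.erase b, lf (w s) := by
          rw [← Finset.mul_prod_erase Tᶜ (fun s => lf (Function.update w b x s)) hbc,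
            Function.update_self]
          congr 1
          refine Finset.prod_congr rfl fun s hs => ?_
          rw [Function.update_of_ne (Finset.ne_of_mem_erase hs)]
        rw [h2]
        exact hx

theorem generic_choice {E S : Type*} [Field E] [Infinite E] [Fintype S] [DecidableEq S] (p n : ℕ)
    (u : S → Fin n → E) (hu : Good p n u) (k : S) (v : Fin n → E) (D : Finset S) (hk : k ∉ D) :
    ∃ w : S → Fin n → E, Good p n w ∧ (∀ s, s ∉ D → w s = u s) ∧
      ∀ Z : Submodule E (Fin n → E), Z ≠ ⊤ → v ∈ Z → (∃ s ∈ D, w s ∈ Z) →
        ∃ s ∈ D, w s ∈ Z ∧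
          w s ∉ Submodule.span E (insert v (w '' {t | t ≠ s ∧ t ≠ k ∧ w t ∈ Z})) := by
  classical
  induction D using Finset.induction_on with
  | empty =>
    refine ⟨u, hu, fun _ _ => rfl, ?_⟩
    rintro Z _ _ ⟨s, hs, _⟩
    exact absurd hs (Finset.notMem_empty s)
  | insert b D hb ih =>
    obtain ⟨w, hw, hwu, hprop⟩ := ih (fun h => hk (Finset.mem_insert_of_mem h))
    obtain ⟨P₀, hP₀, hgood⟩ := h4_good p n w hw b
    obtain ⟨x, hx⟩ := h4_avoid
      (insert P₀ (((Finset.univ : Finset (Finset S)).image
        (fun W : Finset S => Submodule.span E (insert v (w '' (W : Set S))))).filter (fun P => P ≠ ⊤)))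
      (by
        rw [Finset.mem_insert, Finset.mem_filter]
        rintro (h | h)
        · exact hP₀ h.symm
        · exact h.2 rfl)
    have hx0 : x ∉ P₀ := hx P₀ (Finset.mem_insert_self _ _)
    have hx1 : ∀ W : Finset S, Submodule.span E (insert v (w '' (W : Set S))) ≠ ⊤ →
        x ∉ Submodule.span E (insert v (w '' (W : Set S))) := by
      intro W hW
      apply hx
      apply Finset.mem_insert_of_mem
      rw [Finset.mem_filter]
      exact ⟨Finset.mem_image_of_mem _ (Finset.mem_univ W), hW⟩
    refine ⟨Function.update w b x, hgood x hx0, ?_, ?_⟩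
    · intro s hs
      rw [Finset.mem_insert, not_or] at hs
      rw [Function.update_of_ne hs.1]
      exact hwu s hs.2
    · intro Z hZ hv hex
      by_cases hxZ : x ∈ Z
      · refine ⟨b, Finset.mem_insert_self _ _, by rwa [Function.update_self], ?_⟩
        rw [Function.update_self]
        obtain ⟨W, hW⟩ : ∃ W : Finset S, W = Finset.univ.filter
            (fun t => t ≠ b ∧ t ≠ k ∧ w t ∈ Z) := ⟨_, rfl⟩
        have himg : (Function.update w b x) '' {t | t ≠ b ∧ t ≠ k ∧
            Function.update w b x t ∈ Z} ⊆ w '' (W : Set S) := by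
          rintro _ ⟨t, ⟨ht1, ht2, ht3⟩, rfl⟩
          rw [Function.update_of_ne ht1] at ht3 ⊢
          refine ⟨t, ?_, rfl⟩
          rw [hW, Finset.mem_coe, Finset.mem_filter]
          exact ⟨Finset.mem_univ _, ht1, ht2, ht3⟩
        have hle : Submodule.span E (insert v (w '' (W : Set S))) ≤ Z := by
          rw [Submodule.span_le]
          rintro y hy
          rw [Set.mem_insert_iff] at hy
          rcases hy with rfl | ⟨t, ht, rfl⟩
          · exact hv
          · rw [hW, Finset.mem_coe, Finset.mem_filter] at ht
            exact ht.2.2.2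
        have hne : Submodule.span E (insert v (w '' (W : Set S))) ≠ ⊤ := by
          intro h
          rw [h, top_le_iff] at hle
          exact hZ hle
        intro hmem
        exact hx1 W hne (Submodule.span_mono (Set.insert_subset_insert himg) hmem)
      · obtain ⟨s, hs, hsZ⟩ := hex
        have hsb : s ≠ b := by
          rintro rfl
          rw [Function.update_self] at hsZ
          exact hxZ hsZ
        rw [Function.update_of_ne hsb] at hsZ
        obtain ⟨s', hs', hsZ', hsp⟩ := hprop Z hZ hv ⟨s, Finset.mem_of_mem_insert_of_ne hs hsb, hsZ⟩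
        have hsb' : s' ≠ b := by
          rintro rfl
          exact hb hs'
        refine ⟨s', Finset.mem_insert_of_mem hs', by rwa [Function.update_of_ne hsb'], ?_⟩
        rw [Function.update_of_ne hsb']
        intro hmem
        apply hsp
        refine Submodule.span_mono (Set.insert_subset_insert ?_) hmem
        rintro _ ⟨t, ⟨ht1, ht2, ht3⟩, rfl⟩
        have htb : t ≠ b := by
          rintro rfl
          rw [Function.update_self] at ht3
          exact hxZ ht3
        rw [Function.update_of_ne htb] at ht3 ⊢
        exact ⟨t, ⟨ht1, ht2, ht3⟩, rfl⟩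


end Pool.Agent.Helper805_at
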