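import Mathlib
import Pool.Agent.Helper805_at.Defs2
import Pool.Agent.Helper805_at.H3
import Pool.Agent.Helper805_at.H4

set_option autoImplicit false

namespace Pool.Agent.Helper805_at

open Finset









theorem h5_lf_single {E : Type*} [Field E] {n : ℕ} (j : Fin n) :
    lf (Pi.single j 1 : Fin n → E) = MvPolynomial.X j := by
  unfold lf
  rw [Finset.sum_eq_single j]
  · rw [Pi.single_eq_same, MvPolynomial.C_1, one_mul]
  · intro l _ hl
    rw [Pi.single_eq_of_ne hl, MvPolynomial.C_0, zero_mul]
  · intro h
    exact absurd (mem_univ j) h

theorem h5_base {E : Type*} [Field E] (p : ℕ) (hp : p.Prime) (n : ℕ) :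
    Good p n (fun s : Fin p × Fin n => (Pi.single s.2 1 : Fin n → E)) := by
  have : NeZero p := ⟨hp.ne_zero⟩
  refine ⟨({0} : Finset (Fin p)) ×ˢ univ, by simp, ?_, ?_⟩
  · have h := (Pi.basisFun E (Fin n)).linearIndependent
    have hinj : Function.Injective (fun i : ((({0} : Finset (Fin p)) ×ˢ
        (univ : Finset (Fin n)) : Finset (Fin p × Fin n))) => i.1.2) := by
      rintro ⟨⟨i1, i2⟩, hi⟩ ⟨⟨j1, j2⟩, hj⟩ hij
      have h1 := (Finset.mem_product.1 hi).1
      have h2 := (Finset.mem_product.1 hj).1
      rw [Finset.mem_singleton] at h1 h2
      have hij' : i2 = j2 := hij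
      simp only at h1 h2
      subst h1 h2 hij'
      rfl
    have h2 := h.comp _ hinj
    convert h2 using 1
    funext i
    simp [Pi.basisFun_apply]
  · have hc : (({0} : Finset (Fin p)) ×ˢ (univ : Finset (Fin n)))ᶜ =
        (({0} : Finset (Fin p))ᶜ) ×ˢ (univ : Finset (Fin n)) := by
      ext ⟨i, j⟩
      simp [eq_comm]
    have hprod : ∏ s ∈ (({0} : Finset (Fin p)) ×ˢ (univ : Finset (Fin n)))ᶜ,
        lf (Pi.single s.2 1 : Fin n → E) = MvPolynomial.monomial (constE n (p - 1)) 1 := by
      rw [hc, Finset.prod_product]
      simp only [h5_lf_single]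
      rw [Finset.prod_const, Finset.card_compl, Finset.card_singleton, Fintype.card_fin,
        MvPolynomial.monomial_eq, MvPolynomial.C_1, one_mul, Finsupp.prod_fintype _ _ (by simp),
        ← Finset.prod_pow]
      rfl
    rw [hprod, MvPolynomial.coeff_monomial, if_pos rfl]
    exact one_ne_zero

theorem h5_span_symm {E V : Type*} [Field E] [AddCommGroup V] [Module E V] {x y : V}
    (hx : x ≠ 0) (h : x ∈ Submodule.span E {y}) : y ∈ Submodule.span E {x} := by
  obtain ⟨c, hc⟩ := Submodule.mem_span_singleton.1 h
  have hc0 : c ≠ 0 := by
    rintro rfl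
    rw [zero_smul] at hc
    exact hx hc.symm
  refine Submodule.mem_span_singleton.2 ⟨c⁻¹, ?_⟩
  rw [← hc, smul_smul, inv_mul_cancel₀ hc0, one_smul]

/-- the independence argument -/
theorem h5_indep {E V S : Type*} [Field E] [AddCommGroup V] [Module E V] [Finite S]
    (a : S → V) (ha : ∀ s, a s ≠ 0) (Z : Submodule E V)
    (hI : ∀ (m : ℕ) (x : Fin m → S), (∀ i, a (x i) ∈ Z) →
      (∀ i j, i ≠ j → a (x i) ∉ Submodule.span E {a (x j)}) →
      LinearIndependent E (fun i => a (x i)))
    (s0 : S) (hs0 : a s0 ∈ Z) (Q : Set S) (hQ : ∀ q ∈ Q, a q ∈ Z)
    (hQ2 : ∀ q ∈ Q, a q ∉ Submodule.span E {a s0}) :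
    a s0 ∉ Submodule.span E (a '' Q) := by
  intro hmem
  obtain ⟨B, hB, hBs, hBi⟩ := exists_linearIndependent E (a '' Q)
  have hfin : B.Finite := (Set.toFinite (a '' Q)).subset hB
  have : Fintype B := hfin.fintype
  obtain ⟨m, ⟨e⟩⟩ : ∃ m, Nonempty (Fin m ≃ B) := ⟨Fintype.card B, ⟨(Fintype.equivFin B).symm⟩⟩
  have hch : ∀ i : Fin m, ∃ s ∈ Q, a s = (e i : V) := fun i => hB (e i).2
  choose y hyQ hy using hch
  have hlin : LinearIndependent E (fun i => a (y i)) := by
    have h := hBi.comp _ e.injective
    convert h using 1
    funext i
    exact hy i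
  have hne : ∀ i j, i ≠ j → a (y i) ∉ Submodule.span E {a (y j)} := by
    intro i j hij hmem
    have h := hlin.notMem_span_image (s := {j}) (x := i) (by simpa using hij)
    rw [Set.image_singleton] at h
    exact h hmem
  have h := hI (m + 1) (Fin.cons s0 y) (by
    intro i
    refine Fin.cases ?_ (fun i => ?_) i
    · simpa using hs0
    · simpa using hQ _ (hyQ i)) (by
    intro i j
    refine Fin.cases ?_ (fun i => ?_) i
    · refine Fin.cases ?_ (fun j => ?_) j
      · intro h; exact absurd rfl h
      · intro _ hmem
        simp only [Fin.cons_zero, Fin.cons_succ] at hmem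
        exact hQ2 _ (hyQ j) (h5_span_symm (ha s0) hmem)
    · refine Fin.cases ?_ (fun j => ?_) j
      · intro _ hmem
        simp only [Fin.cons_zero, Fin.cons_succ] at hmem
        exact hQ2 _ (hyQ i) hmem
      · intro hij hmem
        simp only [Fin.cons_succ] at hmem
        exact hne i j (fun e => hij (by rw [e])) hmem)
  have e2 : (fun i => a ((Fin.cons s0 y : Fin (m + 1) → S) i)) =
      Fin.cons (a s0) (fun i => a (y i)) := by
    funext i
    refine Fin.cases ?_ (fun i => ?_) i
    · simp
    · simp
  rw [e2, linearIndependent_finCons] at h
  apply h.2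
  have hr : Set.range (fun i => a (y i)) = B := by
    ext z
    constructor
    · rintro ⟨i, rfl⟩
      show a (y i) ∈ B
      rw [hy i]
      exact (e i).2
    · intro hz
      exact ⟨e.symm ⟨z, hz⟩, by simp [hy]⟩
  rw [hr, hBs]
  exact hmem

theorem path_theorem {E : Type*} [Field E] [Infinite E] (p : ℕ) (hp : p.Prime) [CharP E p] (n : ℕ)
    (a : Fin p × Fin n → Fin n → E) (ha : ∀ s, a s ≠ 0)
    (hpt : ∀ s, {t | a t ∈ Submodule.span E {a s}}.ncard ≤ p)
    (hl : ∀ Z : Submodule E (Fin n → E), Z ≠ ⊤ → Light p a Z) :
    Good p n a := by
  classical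
  have main : ∀ A : Finset (Fin p × Fin n), ∃ u : Fin p × Fin n → Fin n → E,
      Good p n u ∧ ∀ s ∈ A, u s = a s := by
    intro A
    induction A using Finset.induction_on with
    | empty => exact ⟨_, h5_base p hp n, fun s hs => absurd hs (Finset.notMem_empty s)⟩
    | insert k A hk ih =>
      obtain ⟨u, hu, huA⟩ := ih
      have hkD : k ∉ (univ \ insert k A : Finset (Fin p × Fin n)) := by simp
      obtain ⟨w, hw, hwu, hprop⟩ := generic_choice p n u hu k (a k) _ hkD
      have hwA : ∀ s ∈ A, w s = a s := by
        intro s hs
        rw [hwu s (by simp [hs]), huA s hs]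
      refine ⟨Function.update w k (a k), ?_, ?_⟩
      · refine step_lemma p hp n w hw k (a k) (ha k) fun Z hZ hvZ hspan => ?_
        by_cases h1 : ∃ s ∈ (univ \ insert k A : Finset (Fin p × Fin n)), w s ∈ Z
        · obtain ⟨s, hs, hsZ, hsn⟩ := hprop Z hZ hvZ h1
          have hsk : s ≠ k := by
            rintro rfl
            exact hkD hs
          have hmem : ∀ t ∈ (univ.erase k : Finset (Fin p × Fin n)), w t ∈ Z →
              w t ∈ Submodule.span E (insert (a k) (w '' {t | t ≠ s ∧ t ≠ k ∧ w t ∈ Z})) ∨
                w t ∈ Submodule.span E {w s} := by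
            intro t ht htZ
            by_cases hts : t = s
            · right
              rw [hts]
              exact Submodule.mem_span_singleton_self _
            · left
              exact Submodule.subset_span (Set.mem_insert_of_mem _
                ⟨t, ⟨hts, (Finset.mem_erase.1 ht).1, htZ⟩, rfl⟩)
          refine Or.inr ⟨Submodule.span E (insert (a k) (w '' {t | t ≠ s ∧ t ≠ k ∧ w t ∈ Z})),
            w s, ?_, Submodule.subset_span (Set.mem_insert _ _), hsZ, hsn, ?_, hmem⟩
          · rw [Submodule.span_le]
            rintro z (rfl | ⟨t, ht, rfl⟩)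
            · exact hvZ
            · exact ht.2.2
          · refine hspan.trans ?_
            rw [Submodule.span_le]
            rintro z ⟨t, ⟨ht, htZ⟩, rfl⟩
            rcases hmem t ht htZ with h | h
            · exact Submodule.mem_sup_left h
            · exact Submodule.mem_sup_right h
        · -- all members in `Z` are in `A`
          have hin : ∀ t ∈ (univ.erase k : Finset (Fin p × Fin n)), w t ∈ Z → t ∈ A := by
            intro t ht htZ
            by_contra htA
            apply h1
            refine ⟨t, ?_, htZ⟩
            rw [Finset.mem_sdiff, Finset.mem_insert, not_or]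
            exact ⟨mem_univ _, (Finset.mem_erase.1 ht).1, htA⟩
          have hN0 : 0 < ((univ.erase k : Finset (Fin p × Fin n)).filter
              (fun s => w s ∈ Z)).card := by
            rw [Finset.card_pos]
            by_contra hne
            rw [Finset.not_nonempty_iff_eq_empty] at hne
            have hemp : {s | s ∈ (univ.erase k : Finset (Fin p × Fin n)) ∧ w s ∈ Z} = ∅ := by
              ext s
              have : s ∉ ((univ.erase k : Finset (Fin p × Fin n)).filter (fun s => w s ∈ Z)) := by
                rw [hne]
                exact Finset.notMem_empty s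
              rw [Finset.mem_filter] at this
              exact ⟨fun h => this h, fun h => absurd h (Set.notMem_empty s)⟩
            rw [hemp, Set.image_empty, Submodule.span_empty] at hspan
            exact ha k ((Submodule.mem_bot E).1 (hspan hvZ))
          -- the counting alternative
          have hcount : ∀ Y : Set (Fin p × Fin n), k ∈ Y → Y.ncard ≤ p →
              (∀ t ∈ (univ.erase k : Finset (Fin p × Fin n)), w t ∈ Z → t ∈ Y) →
              Cond (univ.erase k) w (a k) Z := by
            intro Y hkY hYp hY
            left
            rw [Ne, CharP.cast_eq_zero_iff E p]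
            intro hdvd
            have h2 := Nat.le_of_dvd hN0 hdvd
            have h3 : ((univ.erase k : Finset (Fin p × Fin n)).filter
                (fun s => w s ∈ Z)).card + 1 ≤ Y.ncard := by
              rw [← Finset.card_insert_of_notMem (a := k) (s := ((univ.erase k :
                Finset (Fin p × Fin n)).filter (fun s => w s ∈ Z))) (by simp),
                ← Set.ncard_coe_finset]
              refine Set.ncard_le_ncard ?_ (Set.toFinite Y)
              intro t ht
              rw [Finset.mem_coe, Finset.mem_insert] at ht
              rcases ht with rfl | ht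
              · exact hkY
              · rw [Finset.mem_filter] at ht
                exact hY t ht.1 ht.2
            have h4 : ((univ.erase k : Finset (Fin p × Fin n)).filter
                (fun s => w s ∈ Z)).card < p := by omega
            exact absurd h2 (not_le.2 h4)
          rcases hl Z hZ with hI | hcard
          · by_cases hall : ∀ t ∈ (univ.erase k : Finset (Fin p × Fin n)), w t ∈ Z →
                a t ∈ Submodule.span E {a k}
            · exact hcount {t | a t ∈ Submodule.span E {a k}}
                (Submodule.mem_span_singleton_self _) (hpt k) hall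
            · push Not at hall
              obtain ⟨s0, hs0, hs0Z, hs0n⟩ := hall
              have hs0A := hin s0 hs0 hs0Z
              have hs0Z' : a s0 ∈ Z := by rw [← hwA s0 hs0A]; exact hs0Z
              have hb : a s0 ∉ Submodule.span E (a '' (insert k
                  {t | t ∈ A ∧ a t ∈ Z ∧ a t ∉ Submodule.span E {a s0}})) := by
                refine h5_indep a ha Z hI s0 hs0Z' _ ?_ ?_
                · rintro q (rfl | hq)
                  · exact hvZ
                  · exact hq.2.1
                · rintro q (rfl | hq)
                  · intro hmem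
                    exact hs0n (h5_span_symm (ha _) hmem)
                  · exact hq.2.2
              have hmem : ∀ t ∈ (univ.erase k : Finset (Fin p × Fin n)), w t ∈ Z →
                  w t ∈ Submodule.span E (a '' (insert k
                    {t | t ∈ A ∧ a t ∈ Z ∧ a t ∉ Submodule.span E {a s0}})) ∨
                  w t ∈ Submodule.span E {a s0} := by
                intro t ht htZ
                have htA := hin t ht htZ
                rw [hwA t htA] at htZ ⊢
                by_cases hc : a t ∈ Submodule.span E {a s0}
                · exact Or.inr hc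
                · exact Or.inl (Submodule.subset_span
                    ⟨t, Set.mem_insert_of_mem _ ⟨htA, htZ, hc⟩, rfl⟩)
              refine Or.inr ⟨Submodule.span E (a '' (insert k
                  {t | t ∈ A ∧ a t ∈ Z ∧ a t ∉ Submodule.span E {a s0}})), a s0, ?_,
                Submodule.subset_span (Set.mem_image_of_mem a (Set.mem_insert _ _)),
                hs0Z', hb, ?_, hmem⟩
              · rw [Submodule.span_le]
                rintro z ⟨t, (rfl | ht), rfl⟩
                · exact hvZ
                · exact ht.2.1
              · refine hspan.trans ?_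
                rw [Submodule.span_le]
                rintro z ⟨t, ⟨ht, htZ⟩, rfl⟩
                rcases hmem t ht htZ with h | h
                · exact Submodule.mem_sup_left h
                · exact Submodule.mem_sup_right h
          · refine hcount {s | a s ∈ Z} hvZ hcard ?_
            intro t ht htZ
            show a t ∈ Z
            rw [← hwA t (hin t ht htZ)]
            exact htZ
      · intro s hs
        rcases Finset.mem_insert.1 hs with rfl | hs'
        · rw [Function.update_self]
        · have hsk : s ≠ k := by
            rintro rfl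
            exact hk hs'
          rw [Function.update_of_ne hsk, hwA s hs']
  obtain ⟨u, hu, h⟩ := main univ
  have e : u = a := funext fun s => h s (mem_univ s)
  rw [← e]
  exact hu


end Pool.Agent.Helper805_at
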