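import Mathlib
import Pool.Agent.Helper805_at.Defs2
import Pool.Agent.Helper805_at.H1
import Pool.Agent.Helper805_at.H5

set_option autoImplicit false

namespace Pool.Agent.Helper805_at

open Finset







theorem h6_cols {F : Type*} [Field F] {n : ℕ} (B : Matrix (Fin n) (Fin n) F) (h : B.det ≠ 0) :
    LinearIndependent F (fun k => fun r => B r k) :=
  Matrix.linearIndependent_cols_of_det_ne_zero h

/-- membership over the larger field -/
theorem h6_mem {F E S : Type*} [Field F] [Field E] [Algebra F E] {n : ℕ} (c : S → Fin n → F)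
    (Z : Submodule E (Fin n → E)) :
    ∀ x ∈ Submodule.span F {x | ∃ s, (fun r => algebraMap F E (c s r)) ∈ Z ∧ x = c s},
      (fun r => algebraMap F E (x r)) ∈ Z := by
  intro x hx
  induction hx using Submodule.span_induction with
  | mem x hx =>
    obtain ⟨s, hs, rfl⟩ := hx
    exact hs
  | zero =>
    have : (fun r : Fin n => algebraMap F E ((0 : Fin n → F) r)) = 0 := by
      funext r
      simp
    rw [this]
    exact Z.zero_mem
  | add x y _ _ h1 h2 =>
    have : (fun r : Fin n => algebraMap F E ((x + y) r)) =
        (fun r => algebraMap F E (x r)) + fun r => algebraMap F E (y r) := by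
      funext r
      simp
    rw [this]
    exact Z.add_mem h1 h2
  | smul q x _ h1 =>
    have : (fun r : Fin n => algebraMap F E ((q • x) r)) =
        (algebraMap F E q) • fun r => algebraMap F E (x r) := by
      funext r
      simp
    rw [this]
    exact Z.smul_mem _ h1

theorem h6_top {F E S : Type*} [Field F] [Field E] [Algebra F E] {n : ℕ} (c : S → Fin n → F)
    (Z : Submodule E (Fin n → E)) (hZ : Z ≠ ⊤) :
    Submodule.span F {x | ∃ s, (fun r => algebraMap F E (c s r)) ∈ Z ∧ x = c s} ≠ ⊤ := by
  intro htop
  apply hZ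
  rw [eq_top_iff]
  intro y _
  have h1 : ∀ r : Fin n, (Pi.single r 1 : Fin n → E) ∈ Z := by
    intro r
    have h2 := h6_mem c Z (Pi.single r 1) (by rw [htop]; exact Submodule.mem_top)
    have h3 : (fun q => algebraMap F E ((Pi.single r 1 : Fin n → F) q)) =
        (Pi.single r 1 : Fin n → E) := by
      funext q
      by_cases hq : q = r
      · subst hq; simp
      · simp [Pi.single_eq_of_ne hq]
    rw [h3] at h2
    exact h2
  have h4 : y = ∑ r, y r • (Pi.single r 1 : Fin n → E) := by
    funext q
    simp [Finset.sum_apply, Pi.single_apply]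
  rw [h4]
  exact Z.sum_mem fun r _ => Z.smul_mem _ (h1 r)

theorem h6_good {F E S : Type*} [Field F] [Field E] [Algebra F E] [Fintype S] [DecidableEq S]
    (p n : ℕ) (c : S → Fin n → F) (hg : Good p n (fun s => fun r => algebraMap F E (c s r))) :
    Good p n c := by
  obtain ⟨T, h1, h2, h3⟩ := hg
  refine ⟨T, h1, ?_, ?_⟩
  · exact (linearIndependent_algebraMap_comp_iff (S := E) (v := fun i : T => c i)).1 h2
  · intro h4
    apply h3
    have h5 : ∀ s, lf (fun r => algebraMap F E (c s r)) =
        MvPolynomial.map (algebraMap F E) (lf (c s)) := by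
      intro s
      unfold lf
      rw [map_sum]
      refine Finset.sum_congr rfl fun l _ => ?_
      rw [map_mul, MvPolynomial.map_C, MvPolynomial.map_X]
    rw [Finset.prod_congr rfl fun s _ => h5 s, ← map_prod, MvPolynomial.coeff_map, h4, map_zero]

theorem light_flats (F : Type*) [Field F] (p : ℕ) (hp : p.Prime) [CharP F p] (n : ℕ)
    (B : Fin p → Matrix (Fin n) (Fin n) F) (hB : ∀ i, (B i).det ≠ 0)
    (hl : ∀ Z : Submodule F (Fin n → F), Z ≠ ⊤ →
      Light p (fun (s : Fin p × Fin n) => fun r => B s.1 r s.2) Z) :
    ∃ e : (Fin n ⊕ (Fin (p - 1) × Fin n)) ≃ (Fin p × Fin n),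
      (Matrix.of fun (r k : Fin n) => B (e (Sum.inl k)).1 r (e (Sum.inl k)).2).det ≠ 0 ∧
      (Matrix.of fun (x y : Fin (p - 1) × Fin n) =>
        B (e (Sum.inr y)).1 x.2 (e (Sum.inr y)).2).permanent ≠ 0 := by
  obtain ⟨c, hc⟩ : ∃ c : Fin p × Fin n → Fin n → F, c = fun s => fun r => B s.1 r s.2 := ⟨_, rfl⟩
  have hc0 : ∀ s, c s ≠ 0 := by
    intro s
    rw [hc]
    exact (h6_cols (B s.1) (hB s.1)).ne_zero s.2
  apply from_good p hp n B
  rw [← hc] at hl
  rw [← hc]
  have : CharP (AlgebraicClosure F) p :=
    charP_of_injective_algebraMap (FaithfulSMul.algebraMap_injective F (AlgebraicClosure F)) p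
  apply h6_good (E := AlgebraicClosure F)
  have ha : ∀ s, (fun r => algebraMap F (AlgebraicClosure F) (c s r)) ≠ 0 := by
    intro s h0
    apply hc0 s
    funext r
    have h1 := congrFun h0 r
    simpa using h1
  apply path_theorem p hp n _ ha
  · intro s
    have hinj : Set.InjOn (Prod.fst : Fin p × Fin n → Fin p)
        {t | (fun r => algebraMap F (AlgebraicClosure F) (c t r)) ∈
          Submodule.span (AlgebraicClosure F)
            {(fun r => algebraMap F (AlgebraicClosure F) (c s r))}} := by
      rintro ⟨i, k⟩ ht ⟨i', k'⟩ ht' he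
      have he' : i = i' := he
      subst he'
      by_contra hne
      have hk : k ≠ k' := fun h => hne (by rw [h])
      obtain ⟨α, hα⟩ := Submodule.mem_span_singleton.1 ht
      obtain ⟨β, hβ⟩ := Submodule.mem_span_singleton.1 ht'
      have hli : LinearIndependent F ![c (i, k), c (i, k')] := by
        have hin : Function.Injective (![k, k'] : Fin 2 → Fin n) := by
          intro a b hab
          fin_cases a <;> fin_cases b <;> simp_all
        have h1 := (h6_cols (B i) (hB i)).comp ![k, k'] hin
        have h2 : (fun k => fun r => B i r k) ∘ ![k, k'] = ![c (i, k), c (i, k')] := by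
          rw [hc]
          funext a
          fin_cases a <;> rfl
        rw [← h2]
        exact h1
      have hli' : LinearIndependent (AlgebraicClosure F)
          (fun j => algebraMap F (AlgebraicClosure F) ∘ (![c (i, k), c (i, k')] : Fin 2 → _) j) :=
        linearIndependent_algebraMap_comp_iff.2 hli
      have hβ0 : β ≠ 0 := by
        rintro rfl
        rw [zero_smul] at hβ
        exact ha _ hβ.symm
      have h5 := (Fintype.linearIndependent_iff.1 hli') ![β, -α] (by
        rw [Fin.sum_univ_two]
        have e1 : (algebraMap F (AlgebraicClosure F) ∘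
            (![c (i, k), c (i, k')] : Fin 2 → _) 0) =
            α • (fun r => algebraMap F (AlgebraicClosure F) (c s r)) := hα.symm
        have e2 : (algebraMap F (AlgebraicClosure F) ∘
            (![c (i, k), c (i, k')] : Fin 2 → _) 1) =
            β • (fun r => algebraMap F (AlgebraicClosure F) (c s r)) := hβ.symm
        rw [e1, e2]
        simp only [Matrix.cons_val_zero, Matrix.cons_val_one]
        rw [smul_smul, smul_smul, neg_mul, neg_smul, mul_comm β α, add_neg_cancel]) 0
      exact hβ0 h5
    calc _ ≤ (Set.univ : Set (Fin p)).ncard :=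
          Set.ncard_le_ncard_of_injOn Prod.fst (fun _ _ => Set.mem_univ _) hinj Set.finite_univ
      _ = p := by rw [Set.ncard_univ, Nat.card_eq_fintype_card, Fintype.card_fin]
  · intro Z hZ
    obtain ⟨ZF, hZF⟩ : ∃ ZF, ZF = Submodule.span F {x | ∃ s,
      (fun r => algebraMap F (AlgebraicClosure F) (c s r)) ∈ Z ∧ x = c s} := ⟨_, rfl⟩
    have hne : ZF ≠ ⊤ := by
      rw [hZF]
      exact h6_top c Z hZ
    have hin : ∀ s, (fun r => algebraMap F (AlgebraicClosure F) (c s r)) ∈ Z → c s ∈ ZF := by
      intro s hs
      rw [hZF]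
      exact Submodule.subset_span ⟨s, hs, rfl⟩
    rcases hl ZF hne with h | h
    · left
      intro m x hx hxx
      have h1 := h m x (fun i => hin _ (hx i)) (fun i j hij hm => by
        apply hxx i j hij
        obtain ⟨q, hq⟩ := Submodule.mem_span_singleton.1 hm
        rw [Submodule.mem_span_singleton]
        refine ⟨algebraMap F (AlgebraicClosure F) q, ?_⟩
        funext r
        have h2 := congrFun hq r
        simp only [Pi.smul_apply, smul_eq_mul] at h2 ⊢
        rw [← h2, map_mul])
      exact (linearIndependent_algebraMap_comp_iff (S := AlgebraicClosure F)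
        (v := fun i => c (x i))).2 h1
    · right
      exact (Set.ncard_le_ncard (fun s hs => hin s hs) (Set.toFinite _)).trans h


end Pool.Agent.Helper805_at
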