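import Mathlib
import Pool.Agent.Helper805_at.Defs2
import Pool.Agent.Helper805_at.H3
import Pool.Agent.Helper805_at.H4

set_option autoImplicit false

namespace Pool.Agent.Helper805_at

open Finset








theorem h7_lf_single {E : Type*} [Field E] {n : ℕ} (j : Fin n) :
    lf (Pi.single j 1 : Fin n → E) = MvPolynomial.X j := by
  unfold lf
  rw [Finset.sum_eq_single j]
  · rw [Pi.single_eq_same, MvPolynomial.C_1, one_mul]
  · intro l _ hl
    rw [Pi.single_eq_of_ne hl, MvPolynomial.C_0, zero_mul]
  · intro h
    exact absurd (mem_univ j) h

theorem h7_base {E : Type*} [Field E] (p : ℕ) (hp : p.Prime) (n : ℕ) :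
    Good p n (fun s : Fin p × Fin n => (Pi.single s.2 1 : Fin n → E)) := by
  have : NeZero p := ⟨hp.ne_zero⟩
  refine ⟨({0} : Finset (Fin p)) ×ˢ univ, by simp, ?_, ?_⟩
  · have h := (Pi.basisFun E (Fin n)).linearIndependent
    have hinj : Function.Injective (fun i : ((({0} : Finset (Fin p)) ×ˢ
        (univ : Finset (Fin n)) : Finset (Fin p × Fin n))) => i.1.2) := by
      rintro ⟨⟨i1, i2⟩, hi⟩ ⟨⟨j1, j2⟩, hj⟩ hij
      have h1 := (Finset.mem_product.1 hi).1
      have h2 := (Finset.mem_product.1 hj).1
      rw [Finset.mem_singleton] at h1 h2
      have hij' : i2 = j2 := hij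
      simp only at h1 h2
      subst h1 h2 hij'
      rfl
    have h2 := h.comp _ hinj
    convert h2 using 1
    funext i
    simp [Pi.basisFun_apply]
  · have hc : (({0} : Finset (Fin p)) ×ˢ (univ : Finset (Fin n)))ᶜ =
        (({0} : Finset (Fin p))ᶜ) ×ˢ (univ : Finset (Fin n)) := by
      ext ⟨i, j⟩
      simp [eq_comm]
    have hprod : ∏ s ∈ (({0} : Finset (Fin p)) ×ˢ (univ : Finset (Fin n)))ᶜ,
        lf (Pi.single s.2 1 : Fin n → E) = MvPolynomial.monomial (constE n (p - 1)) 1 := by
      rw [hc, Finset.prod_product]
      simp only [h7_lf_single]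
      rw [Finset.prod_const, Finset.card_compl, Finset.card_singleton, Fintype.card_fin,
        MvPolynomial.monomial_eq, MvPolynomial.C_1, one_mul, Finsupp.prod_fintype _ _ (by simp),
        ← Finset.prod_pow]
      rfl
    rw [hprod, MvPolynomial.coeff_monomial, if_pos rfl]
    exact one_ne_zero

theorem path_order {E : Type*} [Field E] [Infinite E] (p : ℕ) (hp : p.Prime) [CharP E p] (n : ℕ)
    (a : Fin p × Fin n → Fin n → E) (ha : ∀ s, a s ≠ 0)
    (ord : Fin p × Fin n → ℕ) (hord : Function.Injective ord)
    (hC : ∀ k, ∀ Z : Submodule E (Fin n → E), Z ≠ ⊤ → a k ∈ Z →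
      Z ≤ Submodule.span E (a '' {s | ord s < ord k ∧ a s ∈ Z}) →
      Cond (univ.filter (fun s => ord s < ord k)) a (a k) Z) :
    Good p n a := by
  classical
  have main : ∀ m : ℕ, ∃ u : Fin p × Fin n → Fin n → E,
      Good p n u ∧ ∀ s, ord s < m → u s = a s := by
    intro m
    induction m with
    | zero => exact ⟨_, h7_base p hp n, fun s hs => absurd hs (Nat.not_lt_zero _)⟩
    | succ m ih =>
      obtain ⟨u, hu, huA⟩ := ih
      by_cases hk : ∃ k, ord k = m
      · obtain ⟨k, hk⟩ := hk
        have hkD : k ∉ (univ.filter (fun s => m < ord s) : Finset (Fin p × Fin n)) := by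
          simp [hk]
        obtain ⟨w, hw, hwu, hprop⟩ := generic_choice p n u hu k (a k) _ hkD
        have hwA : ∀ s, ord s < m → w s = a s := by
          intro s hs
          rw [hwu s (by rw [Finset.mem_filter, not_and]; intro _; omega), huA s hs]
        refine ⟨Function.update w k (a k), ?_, ?_⟩
        · refine step_lemma p hp n w hw k (a k) (ha k) fun Z hZ hvZ hspan => ?_
          by_cases h1 : ∃ s ∈ (univ.filter (fun s => m < ord s) : Finset (Fin p × Fin n)), w s ∈ Z
          · obtain ⟨s, hs, hsZ, hsn⟩ := hprop Z hZ hvZ h1
            have hsk : s ≠ k := by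
              rintro rfl
              exact hkD hs
            have hmem : ∀ t ∈ (univ.erase k : Finset (Fin p × Fin n)), w t ∈ Z →
                w t ∈ Submodule.span E (insert (a k) (w '' {t | t ≠ s ∧ t ≠ k ∧ w t ∈ Z})) ∨
                  w t ∈ Submodule.span E {w s} := by
              intro t ht htZ
              by_cases hts : t = s
              · right
                rw [hts]
                exact Submodule.mem_span_singleton_self _
              · left
                exact Submodule.subset_span (Set.mem_insert_of_mem _
                  ⟨t, ⟨hts, (Finset.mem_erase.1 ht).1, htZ⟩, rfl⟩)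
            refine Or.inr ⟨Submodule.span E (insert (a k) (w '' {t | t ≠ s ∧ t ≠ k ∧ w t ∈ Z})),
              w s, ?_, Submodule.subset_span (Set.mem_insert _ _), hsZ, hsn, ?_, hmem⟩
            · rw [Submodule.span_le]
              rintro z (rfl | ⟨t, ht, rfl⟩)
              · exact hvZ
              · exact ht.2.2
            · refine hspan.trans ?_
              rw [Submodule.span_le]
              rintro z ⟨t, ⟨ht, htZ⟩, rfl⟩
              rcases hmem t ht htZ with h | h
              · exact Submodule.mem_sup_left h
              · exact Submodule.mem_sup_right h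
          · have hin : ∀ t ∈ (univ.erase k : Finset (Fin p × Fin n)), w t ∈ Z →
                ord t < ord k := by
              intro t ht htZ
              by_contra hlt
              have hne : ord t ≠ ord k := fun e => (Finset.mem_erase.1 ht).1 (hord e)
              exact h1 ⟨t, by rw [Finset.mem_filter]; exact ⟨mem_univ _, by omega⟩, htZ⟩
            have hC' := hC k Z hZ hvZ (by
              refine hspan.trans (Submodule.span_mono ?_)
              rintro z ⟨t, ⟨ht, htZ⟩, rfl⟩
              have h2 := hin t ht htZ
              have h3 := hwA t (by omega)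
              exact ⟨t, ⟨h2, by rw [← h3]; exact htZ⟩, h3.symm⟩)
            rcases hC' with hc | ⟨Z1, b, h4, h5, h6, h7, h8, h9⟩
            · left
              have e : (univ.erase k : Finset (Fin p × Fin n)).filter (fun s => w s ∈ Z) =
                  (univ.filter (fun s => ord s < ord k)).filter (fun s => a s ∈ Z) := by
                ext t
                rw [Finset.mem_filter, Finset.mem_filter, Finset.mem_filter]
                constructor
                · rintro ⟨ht, htZ⟩
                  have h2 := hin t ht htZ
                  rw [hwA t (by omega)] at htZ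
                  exact ⟨⟨mem_univ _, h2⟩, htZ⟩
                · rintro ⟨⟨_, h2⟩, htZ⟩
                  refine ⟨Finset.mem_erase.2 ⟨?_, mem_univ _⟩, ?_⟩
                  · rintro rfl
                    exact lt_irrefl _ h2
                  · rw [hwA t (by omega)]
                    exact htZ
              rw [e]
              exact hc
            · refine Or.inr ⟨Z1, b, h4, h5, h6, h7, h8, ?_⟩
              intro t ht htZ
              have h2 := hin t ht htZ
              rw [hwA t (by omega)] at htZ ⊢
              exact h9 t (Finset.mem_filter.2 ⟨mem_univ _, h2⟩) htZ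
        · intro s hs
          by_cases hsk : s = k
          · rw [hsk, Function.update_self]
          · have hne : ord s ≠ ord k := fun e => hsk (hord e)
            rw [Function.update_of_ne hsk, hwA s (by omega)]
      · refine ⟨u, hu, fun s hs => huA s ?_⟩
        have hne : ord s ≠ m := fun e => hk ⟨s, e⟩
        omega
  obtain ⟨u, hu, h⟩ := main ((univ.sup ord) + 1)
  have e : u = a := funext fun s => h s (Nat.lt_succ_of_le (Finset.le_sup (mem_univ s)))
  rw [← e]
  exact hu


end Pool.Agent.Helper805_at
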