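import Mathlib
import Pool.Agent.Helper805_at.Defs2
import Pool.Agent.Helper805_at.H7

set_option autoImplicit false

namespace Pool.Agent.Helper805_at

open Finset







theorem h8_ord {S : Type*} [Fintype S] (sim : S → S → Prop) (he : Equivalence sim) (mult : S → ℕ)
    (hM : ∀ s, mult s ≤ Fintype.card S) (hm : ∀ s t, sim s t → mult s = mult t) :
    ∃ ord : S → ℕ, Function.Injective ord ∧ (∀ s t, mult t < mult s → ord s < ord t) ∧
      ∀ s s' t, sim s s' → ord s < ord t → ord t < ord s' → sim t s := by
  classical
  rcases isEmpty_or_nonempty S with hS | hS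
  · exact ⟨fun _ => 0, fun s => (hS.false s).elim, fun s => (hS.false s).elim,
      fun s => (hS.false s).elim⟩
  let st : Setoid S := ⟨sim, he⟩
  let rep : S → S := fun s => (Quotient.mk st s).out
  have hrep : ∀ s, sim (rep s) s := fun s => Quotient.exact (Quotient.out_eq (Quotient.mk st s))
  have hrep2 : ∀ s t, sim s t → rep s = rep t := fun s t h => by
    have h1 : Quotient.mk st s = Quotient.mk st t := Quotient.sound h
    simp only [rep, h1]
  obtain ⟨L, hL⟩ : ∃ L, L = Fintype.card S := ⟨_, rfl⟩
  have hL0 : 0 < L := by rw [hL]; exact Fintype.card_pos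
  let e := Fintype.equivFin S
  obtain ⟨idx, hidx⟩ : ∃ idx : S → ℕ, idx = fun s => (e s : ℕ) := ⟨_, rfl⟩
  have hlt : ∀ s, idx s < L := fun s => by rw [hidx, hL]; exact (e s).2
  have hii : Function.Injective idx := fun s t h => by
    rw [hidx] at h
    exact e.injective (Fin.ext h)
  obtain ⟨q, hq⟩ : ∃ q : S → ℕ, q = fun s => (L - mult s) * L + idx (rep s) := ⟨_, rfl⟩
  obtain ⟨ord, hord⟩ : ∃ ord : S → ℕ, ord = fun s => q s * L + idx s := ⟨_, rfl⟩
  have hqs : ∀ s, q s = (L - mult s) * L + idx (rep s) := fun s => by rw [hq]
  have hos : ∀ s, ord s = q s * L + idx s := fun s => by rw [hord]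
  have hdiv : ∀ (x i : ℕ), i < L → (x * L + i) / L = x := fun x i hi => by
    rw [Nat.add_comm, Nat.add_mul_div_right _ _ hL0, Nat.div_eq_of_lt hi, Nat.zero_add]
  have hmod : ∀ (x i : ℕ), i < L → (x * L + i) % L = i := fun x i hi => by
    rw [Nat.add_comm, Nat.add_mul_mod_self_right, Nat.mod_eq_of_lt hi]
  have hod : ∀ s, ord s / L = q s := fun s => by rw [hos]; exact hdiv _ _ (hlt s)
  have hom : ∀ s, ord s % L = idx s := fun s => by rw [hos]; exact hmod _ _ (hlt s)
  have hqm : ∀ s, q s % L = idx (rep s) := fun s => by rw [hqs]; exact hmod _ _ (hlt _)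
  refine ⟨ord, fun s t h => hii ?_, fun s t h => ?_, fun s s' t hs h1 h2 => ?_⟩
  · rw [← hom s, ← hom t, h]
  · have h1 := hM s
    rw [← hL] at h1
    have h2 : L - mult s + 1 ≤ L - mult t := by omega
    have h3 : (L - mult s + 1) * L ≤ (L - mult t) * L := Nat.mul_le_mul_right L h2
    have h4 := hlt (rep s)
    have h5 : q s + 1 ≤ q t := by
      rw [hqs, hqs]
      rw [Nat.add_mul, Nat.one_mul] at h3
      omega
    have h6 : (q s + 1) * L ≤ q t * L := Nat.mul_le_mul_right L h5
    have h7 := hlt s
    rw [hos, hos]
    rw [Nat.add_mul, Nat.one_mul] at h6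
    omega
  · have h3 : q s = q s' := by rw [hqs, hqs, hm s s' hs, hrep2 s s' hs]
    have h4 : q s ≤ q t := by
      rw [← hod s, ← hod t]
      exact Nat.div_le_div_right h1.le
    have h5 : q t ≤ q s' := by
      rw [← hod t, ← hod s']
      exact Nat.div_le_div_right h2.le
    have h6 : q t = q s := by omega
    have h7 : rep t = rep s := hii (by rw [← hqm, ← hqm, h6])
    exact he.trans (he.symm (hrep t)) (h7 ▸ hrep s)

theorem three_path {E : Type*} [Field E] [Infinite E] (p : ℕ) (hp : p.Prime) [CharP E p]
    (a : Fin p × Fin 3 → Fin 3 → E) (ha : ∀ s, a s ≠ 0)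
    (hpt : ∀ s, {t | a t ∈ Submodule.span E {a s}}.ncard ≤ p)
    (h2 : ∀ Z : Submodule E (Fin 3 → E), Z ≠ ⊤ → {s | a s ∈ Z}.ncard ≤ 2 * p)
    (hl : ∀ Z : Submodule E (Fin 3 → E), Z ≠ ⊤ → {s | a s ∈ Z}.ncard ≤ p ∨
      ∃ s t, a s ∈ Z ∧ a t ∈ Z ∧ a s ∉ Submodule.span E {a t} ∧
        p < {x | a x ∈ Submodule.span E {a s}}.ncard + {x | a x ∈ Submodule.span E {a t}}.ncard) :
    Good p 3 a := by
  classical
  have hspan : ∀ s t, a s ∈ Submodule.span E {a t} → Submodule.span E {a s} = Submodule.span E {a t} := by
    intro s t h
    obtain ⟨c, hc⟩ := Submodule.mem_span_singleton.1 h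
    have hc0 : c ≠ 0 := by
      rintro rfl
      rw [zero_smul] at hc
      exact ha s hc.symm
    rw [← hc]
    exact Submodule.span_singleton_smul_eq (isUnit_iff_ne_zero.2 hc0) _
  have hself : ∀ s, a s ∈ Submodule.span E {a s} := fun s => Submodule.mem_span_singleton_self _
  have hsymm : ∀ s t, a s ∈ Submodule.span E {a t} → a t ∈ Submodule.span E {a s} := by
    intro s t h
    rw [hspan s t h]
    exact hself t
  have htrans : ∀ s t r, a s ∈ Submodule.span E {a t} → a t ∈ Submodule.span E {a r} →
      a s ∈ Submodule.span E {a r} := by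
    intro s t r h1 h2
    rw [← hspan t r h2]
    exact h1
  obtain ⟨mult, hmult⟩ : ∃ mult : Fin p × Fin 3 → ℕ,
      ∀ s, mult s = {t | a t ∈ Submodule.span E {a s}}.ncard := ⟨_, fun s => rfl⟩
  obtain ⟨ord, hinj, O1, O2⟩ := h8_ord (fun s t => a s ∈ Submodule.span E {a t})
    ⟨hself, fun {s t} h => hsymm s t h, fun {s t r} h1 h2 => htrans s t r h1 h2⟩ mult
    (fun s => by
      rw [hmult, ← Nat.card_eq_fintype_card]
      exact Set.ncard_le_card _)
    (fun s t h => by rw [hmult, hmult, hspan s t h])
  have hp0 := hp.pos
  refine path_order p hp 3 a ha ord hinj fun k Z hZ hk hsp => ?_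
  obtain ⟨Nf, hNf⟩ : ∃ Nf : Finset (Fin p × Fin 3),
      Nf = (univ.filter (fun s => ord s < ord k)).filter (fun s => a s ∈ Z) := ⟨_, rfl⟩
  have hmem : ∀ s, s ∈ Nf ↔ ord s < ord k ∧ a s ∈ Z := fun s => by rw [hNf]; simp
  have hcast : (∃ r, r * p < Nf.card ∧ Nf.card < (r + 1) * p) → ((Nf.card : ℕ) : E) ≠ 0 := by
    rintro ⟨r, h1, h2⟩ h
    rw [CharP.cast_eq_zero_iff E p] at h
    obtain ⟨c, hc⟩ := h
    rw [hc, Nat.mul_comm p c] at h1 h2
    have h3 := lt_of_mul_lt_mul_right h1 (Nat.zero_le p)
    have h4 := lt_of_mul_lt_mul_right h2 (Nat.zero_le p)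
    omega
  have hkN : k ∉ Nf := fun h => lt_irrefl _ ((hmem k).1 h).1
  have hne : Nf.Nonempty := by
    by_contra hc
    rw [Finset.not_nonempty_iff_eq_empty] at hc
    have h1 : {s | ord s < ord k ∧ a s ∈ Z} = (∅ : Set (Fin p × Fin 3)) := by
      ext s
      simp only [Set.mem_ofPred_eq, Set.mem_empty_iff_false, iff_false]
      intro h
      have := (hmem s).2 h
      rw [hc] at this
      exact absurd this (Finset.notMem_empty s)
    rw [h1, Set.image_empty, Submodule.span_empty] at hsp
    exact ha k ((Submodule.mem_bot E).1 (hsp hk))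
  have hpos := hne.card_pos
  -- a subset of a set of known size without `k`
  have hsmall : ∀ W : Set (Fin p × Fin 3), k ∈ W → (∀ s ∈ Nf, s ∈ W) → Nf.card < W.ncard := by
    intro W hkW hW
    have h1 : insert k Nf ⊆ W.toFinset := by
      intro s hs
      rw [Set.mem_toFinset]
      rcases Finset.mem_insert.1 hs with rfl | hs
      · exact hkW
      · exact hW s hs
    have h2 := Finset.card_le_card h1
    rw [Finset.card_insert_of_notMem hkN] at h2
    rw [Set.ncard_eq_toFinset_card']
    omega
  have hexp : (((univ.filter (fun s => ord s < ord k)).filter (fun s => a s ∈ Z)).card : ℕ) = Nf.card := by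
    rw [hNf]
  unfold Cond
  by_cases hall : ∀ s ∈ Nf, a s ∈ Submodule.span E {a k}
  · left
    have h1 := hsmall {t | a t ∈ Submodule.span E {a k}} (hself k) hall
    have h2 := hpt k
    have h3 := hcast ⟨0, by omega, by omega⟩
    rw [hNf] at h3
    convert h3
  · push Not at hall
    obtain ⟨s0, hs0, hs0k⟩ := hall
    by_cases hall2 : ∀ s ∈ Nf, a s ∈ Submodule.span E {a k} ∨ a s ∈ Submodule.span E {a s0}
    · right
      refine ⟨Submodule.span E {a k}, a s0, ?_, hself k, ((hmem s0).1 hs0).2, hs0k, ?_, ?_⟩
      · rw [Submodule.span_singleton_le_iff_mem]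
        exact hk
      · refine hsp.trans (Submodule.span_le.2 ?_)
        rintro _ ⟨s, hs, rfl⟩
        rcases hall2 s ((hmem s).2 hs) with h | h
        · exact Submodule.mem_sup_left h
        · exact Submodule.mem_sup_right h
      · intro s hs hsZ
        exact hall2 s ((hmem s).2 ⟨(Finset.mem_filter.1 hs).2, hsZ⟩)
    · left
      push Not at hall2
      obtain ⟨s1, hs1, hs1k, hs10⟩ := hall2
      have hlt := hsmall {s | a s ∈ Z} hk fun s hs => ((hmem s).1 hs).2
      have hle2 := h2 Z hZ
      rcases hl Z hZ with hcase | ⟨s, t, hsZ, htZ, hst, hsum⟩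
      · have h3 := hcast ⟨0, by omega, by omega⟩
        rw [hNf] at h3
        convert h3
      · -- classes of early elements
        have hcls : ∀ x, ord x < ord k → a x ∉ Submodule.span E {a k} → a x ∈ Z →
            ∀ y, a y ∈ Submodule.span E {a x} → y ∈ Nf := by
          intro x hx hxk hxZ y hy
          have hyZ : a y ∈ Z := by
            have h1 : Submodule.span E {a x} ≤ Z := by
              rw [Submodule.span_singleton_le_iff_mem]; exact hxZ
            exact h1 hy
          refine (hmem y).2 ⟨?_, hyZ⟩
          by_contra hc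
          rcases Nat.lt_or_ge (ord k) (ord y) with h1 | h1
          · have h2 := O2 x y k (hsymm y x hy) hx h1
            exact hxk (hsymm k x h2)
          · have h2 : y = k := hinj (by omega)
            rw [h2] at hy
            exact hxk (hsymm k x hy)
        have hadd : ∀ x y, ord x < ord k → a x ∉ Submodule.span E {a k} → a x ∈ Z →
            ord y < ord k → a y ∉ Submodule.span E {a k} → a y ∈ Z →
            a x ∉ Submodule.span E {a y} → mult x + mult y ≤ Nf.card := by
          intro x y hx hxk hxZ hy hyk hyZ hxy
          have hm2 : ∀ x, mult x =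
              (univ.filter (fun t => a t ∈ Submodule.span E {a x})).card := by
            intro x
            rw [hmult, Set.ncard_eq_toFinset_card']
            congr 1
            ext w
            simp
          have h1 : univ.filter (fun t => a t ∈ Submodule.span E {a x}) ∪
              univ.filter (fun t => a t ∈ Submodule.span E {a y}) ⊆ Nf := by
            intro w hw
            rcases Finset.mem_union.1 hw with hw | hw
            · exact hcls x hx hxk hxZ w (Finset.mem_filter.1 hw).2
            · exact hcls y hy hyk hyZ w (Finset.mem_filter.1 hw).2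
          have h2 : Disjoint (univ.filter (fun t => a t ∈ Submodule.span E {a x}))
              (univ.filter (fun t => a t ∈ Submodule.span E {a y})) := by
            rw [Finset.disjoint_left]
            intro w hw hw'
            have e1 : a w ∈ Submodule.span E {a x} := (Finset.mem_filter.1 hw).2
            have e2 : a w ∈ Submodule.span E {a y} := (Finset.mem_filter.1 hw').2
            exact hxy (htrans x w y (hsymm w x e1) e2)
          have h3 := Finset.card_le_card h1
          rw [Finset.card_union_of_disjoint h2] at h3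
          rw [hm2, hm2]
          exact h3
        have hlate : ∀ x, ¬ (ord x < ord k ∧ a x ∉ Submodule.span E {a k}) → mult x ≤ mult k := by
          intro x hx
          by_contra hc
          push Not at hc
          have h1 := O1 x k hc
          have h2 : a x ∈ Submodule.span E {a k} := by
            by_contra h3
            exact hx ⟨h1, h3⟩
          rw [hmult, hmult, hspan x k h2] at hc
          exact lt_irrefl _ hc
        have hearly : ∀ y, ord y < ord k → mult k ≤ mult y := by
          intro y hy
          by_contra hc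
          push Not at hc
          have := O1 k y hc
          omega
        have hs0' := (hmem s0).1 hs0
        have hs1' := (hmem s1).1 hs1
        rw [← hmult, ← hmult] at hsum
        have hbig : mult s + mult t ≤ Nf.card := by
          by_cases hsE : ord s < ord k ∧ a s ∉ Submodule.span E {a k}
          · by_cases htE : ord t < ord k ∧ a t ∉ Submodule.span E {a k}
            · exact hadd s t hsE.1 hsE.2 hsZ htE.1 htE.2 htZ hst
            · -- `s` is early, `t` is late
              have h1 := hlate t htE
              by_cases h2 : a s0 ∈ Submodule.span E {a s}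
              · have h3 : a s1 ∉ Submodule.span E {a s} := fun h4 =>
                  hs10 (htrans s1 s s0 h4 (hsymm s0 s h2))
                have h5 := hadd s1 s hs1'.1 hs1k hs1'.2 hsE.1 hsE.2 hsZ h3
                have h6 := hearly s1 hs1'.1
                omega
              · have h5 := hadd s0 s hs0'.1 hs0k hs0'.2 hsE.1 hsE.2 hsZ h2
                have h6 := hearly s0 hs0'.1
                omega
          · have h1 := hlate s hsE
            by_cases htE : ord t < ord k ∧ a t ∉ Submodule.span E {a k}
            · by_cases h2 : a s0 ∈ Submodule.span E {a t}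
              · have h3 : a s1 ∉ Submodule.span E {a t} := fun h4 =>
                  hs10 (htrans s1 t s0 h4 (hsymm s0 t h2))
                have h5 := hadd s1 t hs1'.1 hs1k hs1'.2 htE.1 htE.2 htZ h3
                have h6 := hearly s1 hs1'.1
                omega
              · have h5 := hadd s0 t hs0'.1 hs0k hs0'.2 htE.1 htE.2 htZ h2
                have h6 := hearly s0 hs0'.1
                omega
            · have h2 := hlate t htE
              have h3 := hadd s1 s0 hs1'.1 hs1k hs1'.2 hs0'.1 hs0k hs0'.2 hs10
              have h5 := hearly s0 hs0'.1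
              have h6 := hearly s1 hs1'.1
              omega
        have h3 := hcast ⟨1, by omega, by omega⟩
        rw [hNf] at h3
        convert h3


end Pool.Agent.Helper805_at
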