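import Mathlib
import Pool.Agent.Helper805_at.Defs2
import Pool.Agent.Helper805_at.H1
import Pool.Agent.Helper805_at.H8

set_option autoImplicit false

namespace Pool.Agent.Helper805_at

open Finset







theorem h9_cols {F : Type*} [Field F] {n : ℕ} (B : Matrix (Fin n) (Fin n) F) (h : B.det ≠ 0) :
    LinearIndependent F (fun k => fun r => B r k) :=
  Matrix.linearIndependent_cols_of_det_ne_zero h

/-- membership over the larger field -/
theorem h9_mem {F E S : Type*} [Field F] [Field E] [Algebra F E] {n : ℕ} (c : S → Fin n → F)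
    (Z : Submodule E (Fin n → E)) :
    ∀ x ∈ Submodule.span F {x | ∃ s, (fun r => algebraMap F E (c s r)) ∈ Z ∧ x = c s},
      (fun r => algebraMap F E (x r)) ∈ Z := by
  intro x hx
  induction hx using Submodule.span_induction with
  | mem x hx =>
    obtain ⟨s, hs, rfl⟩ := hx
    exact hs
  | zero =>
    have : (fun r : Fin n => algebraMap F E ((0 : Fin n → F) r)) = 0 := by
      funext r
      simp
    rw [this]
    exact Z.zero_mem
  | add x y _ _ h1 h2 =>
    have : (fun r : Fin n => algebraMap F E ((x + y) r)) =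
        (fun r => algebraMap F E (x r)) + fun r => algebraMap F E (y r) := by
      funext r
      simp
    rw [this]
    exact Z.add_mem h1 h2
  | smul q x _ h1 =>
    have : (fun r : Fin n => algebraMap F E ((q • x) r)) =
        (algebraMap F E q) • fun r => algebraMap F E (x r) := by
      funext r
      simp
    rw [this]
    exact Z.smul_mem _ h1

theorem h9_top {F E S : Type*} [Field F] [Field E] [Algebra F E] {n : ℕ} (c : S → Fin n → F)
    (Z : Submodule E (Fin n → E)) (hZ : Z ≠ ⊤) :
    Submodule.span F {x | ∃ s, (fun r => algebraMap F E (c s r)) ∈ Z ∧ x = c s} ≠ ⊤ := by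
  intro htop
  apply hZ
  rw [eq_top_iff]
  intro y _
  have h1 : ∀ r : Fin n, (Pi.single r 1 : Fin n → E) ∈ Z := by
    intro r
    have h2 := h9_mem c Z (Pi.single r 1) (by rw [htop]; exact Submodule.mem_top)
    have h3 : (fun q => algebraMap F E ((Pi.single r 1 : Fin n → F) q)) =
        (Pi.single r 1 : Fin n → E) := by
      funext q
      by_cases hq : q = r
      · subst hq; simp
      · simp [Pi.single_eq_of_ne hq]
    rw [h3] at h2
    exact h2
  have h4 : y = ∑ r, y r • (Pi.single r 1 : Fin n → E) := by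
    funext q
    simp [Finset.sum_apply, Pi.single_apply]
  rw [h4]
  exact Z.sum_mem fun r _ => Z.smul_mem _ (h1 r)

theorem h9_good {F E S : Type*} [Field F] [Field E] [Algebra F E] [Fintype S] [DecidableEq S]
    (p n : ℕ) (c : S → Fin n → F) (hg : Good p n (fun s => fun r => algebraMap F E (c s r))) :
    Good p n c := by
  obtain ⟨T, h1, h2, h3⟩ := hg
  refine ⟨T, h1, ?_, ?_⟩
  · exact (linearIndependent_algebraMap_comp_iff (S := E) (v := fun i : T => c i)).1 h2
  · intro h4
    apply h3
    have h5 : ∀ s, lf (fun r => algebraMap F E (c s r)) =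
        MvPolynomial.map (algebraMap F E) (lf (c s)) := by
      intro s
      unfold lf
      rw [map_sum]
      refine Finset.sum_congr rfl fun l _ => ?_
      rw [map_mul, MvPolynomial.map_C, MvPolynomial.map_X]
    rw [Finset.prod_congr rfl fun s _ => h5 s, ← map_prod, MvPolynomial.coeff_map, h4, map_zero]


theorem h9_span {F E S : Type*} [Field F] [Field E] [Algebra F E] {n : ℕ} (c : S → Fin n → F)
    (x s : S) (h : c x ∈ Submodule.span F {c s}) :
    (fun r => algebraMap F E (c x r)) ∈
      Submodule.span E {(fun r => algebraMap F E (c s r) : Fin n → E)} := by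
  obtain ⟨q, hq⟩ := Submodule.mem_span_singleton.1 h
  rw [Submodule.mem_span_singleton]
  refine ⟨algebraMap F E q, ?_⟩
  funext r
  have h2 := congrFun hq r
  simp only [Pi.smul_apply, smul_eq_mul] at h2 ⊢
  rw [← h2, map_mul]

theorem h9_notin {F E S : Type*} [Field F] [Field E] [Algebra F E] {n : ℕ} (c : S → Fin n → F)
    (s t : S) (ht : c t ≠ 0) (h : c s ∉ Submodule.span F {c t}) :
    (fun r => algebraMap F E (c s r)) ∉
      Submodule.span E {(fun r => algebraMap F E (c t r) : Fin n → E)} := by
  have hli : LinearIndependent F ![c s, c t] := by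
    rw [linearIndependent_fin2]
    refine ⟨ht, fun q hq => h ?_⟩
    rw [Submodule.mem_span_singleton]
    exact ⟨q, hq⟩
  have hli' : LinearIndependent E (fun j => algebraMap F E ∘ (![c s, c t] : Fin 2 → _) j) :=
    linearIndependent_algebraMap_comp_iff.2 hli
  intro hm
  obtain ⟨q, hq⟩ := Submodule.mem_span_singleton.1 hm
  exact (linearIndependent_fin2.1 hli').2 q hq

theorem rank_three (F : Type*) [Field F] (p : ℕ) (hp : p.Prime) [CharP F p]
    (B : Fin p → Matrix (Fin 3) (Fin 3) F) (hB : ∀ i, (B i).det ≠ 0)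
    (hl : ∀ Z : Submodule F (Fin 3 → F), Z ≠ ⊤ →
      {s : Fin p × Fin 3 | (fun r => B s.1 r s.2) ∈ Z}.ncard ≤ p ∨
      ∃ s t : Fin p × Fin 3, (fun r => B s.1 r s.2) ∈ Z ∧ (fun r => B t.1 r t.2) ∈ Z ∧
        (fun r => B s.1 r s.2) ∉ Submodule.span F {(fun r => B t.1 r t.2 : Fin 3 → F)} ∧
        p < {x : Fin p × Fin 3 | (fun r => B x.1 r x.2) ∈
              Submodule.span F {(fun r => B s.1 r s.2 : Fin 3 → F)}}.ncard +
            {x : Fin p × Fin 3 | (fun r => B x.1 r x.2) ∈
              Submodule.span F {(fun r => B t.1 r t.2 : Fin 3 → F)}}.ncard) :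
    ∃ e : (Fin 3 ⊕ (Fin (p - 1) × Fin 3)) ≃ (Fin p × Fin 3),
      (Matrix.of fun (r k : Fin 3) => B (e (Sum.inl k)).1 r (e (Sum.inl k)).2).det ≠ 0 ∧
      (Matrix.of fun (x y : Fin (p - 1) × Fin 3) =>
        B (e (Sum.inr y)).1 x.2 (e (Sum.inr y)).2).permanent ≠ 0 := by
  classical
  obtain ⟨c, hc⟩ : ∃ c : Fin p × Fin 3 → Fin 3 → F, c = fun s => fun r => B s.1 r s.2 := ⟨_, rfl⟩
  have hcs : ∀ s : Fin p × Fin 3, (fun r => B s.1 r s.2) = c s := fun s => by rw [hc]
  have hc0 : ∀ s, c s ≠ 0 := by
    intro s
    rw [hc]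
    exact (h9_cols (B s.1) (hB s.1)).ne_zero s.2
  apply from_good p hp 3 B
  simp only [hcs] at hl
  rw [← hc]
  have : CharP (AlgebraicClosure F) p :=
    charP_of_injective_algebraMap (FaithfulSMul.algebraMap_injective F (AlgebraicClosure F)) p
  apply h9_good (E := AlgebraicClosure F)
  have ha : ∀ s, (fun r => algebraMap F (AlgebraicClosure F) (c s r)) ≠ 0 := by
    intro s h0
    apply hc0 s
    funext r
    have h1 := congrFun h0 r
    simpa using h1
  apply three_path p hp _ ha
  · intro s
    have hinj : Set.InjOn (Prod.fst : Fin p × Fin 3 → Fin p)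
        {t | (fun r => algebraMap F (AlgebraicClosure F) (c t r)) ∈
          Submodule.span (AlgebraicClosure F)
            {(fun r => algebraMap F (AlgebraicClosure F) (c s r))}} := by
      rintro ⟨i, k⟩ ht ⟨i', k'⟩ ht' he
      have he' : i = i' := he
      subst he'
      by_contra hne
      have hk : k ≠ k' := fun h => hne (by rw [h])
      obtain ⟨α, hα⟩ := Submodule.mem_span_singleton.1 ht
      obtain ⟨β, hβ⟩ := Submodule.mem_span_singleton.1 ht'
      have hli : LinearIndependent F ![c (i, k), c (i, k')] := by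
        have hin : Function.Injective (![k, k'] : Fin 2 → Fin 3) := by
          intro a b hab
          fin_cases a <;> fin_cases b <;> simp_all
        have h1 := (h9_cols (B i) (hB i)).comp ![k, k'] hin
        have h2 : (fun k => fun r => B i r k) ∘ ![k, k'] = ![c (i, k), c (i, k')] := by
          rw [hc]
          funext a
          fin_cases a <;> rfl
        rw [← h2]
        exact h1
      have hli' : LinearIndependent (AlgebraicClosure F)
          (fun j => algebraMap F (AlgebraicClosure F) ∘ (![c (i, k), c (i, k')] : Fin 2 → _) j) :=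
        linearIndependent_algebraMap_comp_iff.2 hli
      have hβ0 : β ≠ 0 := by
        rintro rfl
        rw [zero_smul] at hβ
        exact ha _ hβ.symm
      have h5 := (Fintype.linearIndependent_iff.1 hli') ![β, -α] (by
        rw [Fin.sum_univ_two]
        have e1 : (algebraMap F (AlgebraicClosure F) ∘
            (![c (i, k), c (i, k')] : Fin 2 → _) 0) =
            α • (fun r => algebraMap F (AlgebraicClosure F) (c s r)) := hα.symm
        have e2 : (algebraMap F (AlgebraicClosure F) ∘
            (![c (i, k), c (i, k')] : Fin 2 → _) 1) =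
            β • (fun r => algebraMap F (AlgebraicClosure F) (c s r)) := hβ.symm
        rw [e1, e2]
        simp only [Matrix.cons_val_zero, Matrix.cons_val_one]
        rw [smul_smul, smul_smul, neg_mul, neg_smul, mul_comm β α, add_neg_cancel]) 0
      exact hβ0 h5
    calc _ ≤ (Set.univ : Set (Fin p)).ncard :=
          Set.ncard_le_ncard_of_injOn Prod.fst (fun _ _ => Set.mem_univ _) hinj Set.finite_univ
      _ = p := by rw [Set.ncard_univ, Nat.card_eq_fintype_card, Fintype.card_fin]
  · intro Z hZ
    obtain ⟨ZF, hZF⟩ : ∃ ZF, ZF = Submodule.span F {x | ∃ s,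
      (fun r => algebraMap F (AlgebraicClosure F) (c s r)) ∈ Z ∧ x = c s} := ⟨_, rfl⟩
    have hne : ZF ≠ ⊤ := by
      rw [hZF]
      exact h9_top c Z hZ
    have hin : ∀ s, (fun r => algebraMap F (AlgebraicClosure F) (c s r)) ∈ Z → c s ∈ ZF := by
      intro s hs
      rw [hZF]
      exact Submodule.subset_span ⟨s, hs, rfl⟩
    have hex : ∀ i : Fin p, ∃ k : Fin 3, c (i, k) ∉ ZF := by
      intro i
      by_contra hcon
      push Not at hcon
      apply hne
      have h1 := h9_cols (B i) (hB i)
      have h2 := h1.span_eq_top_of_card_eq_finrank' (by simp)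
      rw [eq_top_iff, ← h2, Submodule.span_le]
      rintro _ ⟨k, rfl⟩
      have h3 := hcon k
      rw [hc] at h3
      exact h3
    choose k hk using hex
    have h3 : {s | (fun r => algebraMap F (AlgebraicClosure F) (c s r)) ∈ Z} ⊆
        (Set.range fun i : Fin p => (i, k i))ᶜ := by
      rintro s hs ⟨i, rfl⟩
      exact hk i (hin _ hs)
    have h4 : (Set.range fun i : Fin p => (i, k i)).ncard = p := by
      rw [← Set.image_univ, Set.ncard_image_of_injective]
      · rw [Set.ncard_univ, Nat.card_eq_fintype_card, Fintype.card_fin]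
      · intro i j hij
        exact (Prod.ext_iff.1 hij).1
    have h5 := Set.ncard_add_ncard_compl (Set.range fun i : Fin p => (i, k i))
    rw [h4, Nat.card_eq_fintype_card, Fintype.card_prod, Fintype.card_fin, Fintype.card_fin] at h5
    have h6 := Set.ncard_le_ncard h3 (Set.toFinite _)
    omega
  · intro Z hZ
    obtain ⟨ZF, hZF⟩ : ∃ ZF, ZF = Submodule.span F {x | ∃ s,
      (fun r => algebraMap F (AlgebraicClosure F) (c s r)) ∈ Z ∧ x = c s} := ⟨_, rfl⟩
    have hne : ZF ≠ ⊤ := by
      rw [hZF]
      exact h9_top c Z hZ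
    have hin : ∀ s, (fun r => algebraMap F (AlgebraicClosure F) (c s r)) ∈ Z → c s ∈ ZF := by
      intro s hs
      rw [hZF]
      exact Submodule.subset_span ⟨s, hs, rfl⟩
    have hout : ∀ s, c s ∈ ZF → (fun r => algebraMap F (AlgebraicClosure F) (c s r)) ∈ Z := by
      intro s hs
      rw [hZF] at hs
      exact h9_mem c Z _ hs
    rcases hl ZF hne with h | ⟨s, t, hs, ht, hst, hp2⟩
    · left
      exact (Set.ncard_le_ncard (fun s hs => hin s hs) (Set.toFinite _)).trans h
    · right
      refine ⟨s, t, hout s hs, hout t ht, h9_notin c s t (hc0 t) hst, lt_of_lt_of_le hp2 ?_⟩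
      refine Nat.add_le_add ?_ ?_
      · exact Set.ncard_le_ncard (fun x hx => h9_span c x s hx) (Set.toFinite _)
      · exact Set.ncard_le_ncard (fun x hx => h9_span c x t hx) (Set.toFinite _)
end Pool.Agent.Helper805_at
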